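import Mathlib

/-! Numbers with decimal digits 0 and 1, repunits, and basic facts. -/

namespace Pool.Agent.TDS

/-- The repunit with `n` digits. -/
def R : ℕ → ℕ
  | 0 => 0
  | n + 1 => R n + 10 ^ n

/-- All decimal digits of `z` are 0 or 1. -/
def B01 (z : ℕ) : Prop := ∀ j, z / 10 ^ j % 10 ≤ 1

theorem nine_R (n : ℕ) : 9 * R n + 1 = 10 ^ n := by
  induction n with
  | zero => simp [R]
  | succ n ih => simp only [R]; rw [pow_succ]; omega

theorem R_succ' (n : ℕ) : R (n + 1) = 1 + 10 * R n := by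
  have h1 := nine_R n
  have h2 := nine_R (n + 1)
  rw [pow_succ] at h2
  omega

theorem mod_le {z : ℕ} (h : B01 z) (p : ℕ) : z % 10 ^ p ≤ R p := by
  induction p with
  | zero => simp [R, Nat.mod_one]
  | succ p ih =>
    rw [Nat.mod_pow_succ]
    simp only [R]
    have h1 := h p
    have h2 : 10 ^ p * (z / 10 ^ p % 10) ≤ 10 ^ p * 1 := Nat.mul_le_mul_left _ h1
    omega

theorem le_R {z : ℕ} (h : B01 z) {p : ℕ} (hz : z < 10 ^ p) : z ≤ R p := by
  have := mod_le h p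
  rwa [Nat.mod_eq_of_lt hz] at this

theorem B01.div {z : ℕ} (h : B01 z) (s : ℕ) : B01 (z / 10 ^ s) := by
  intro j
  rw [Nat.div_div_eq_div_mul, ← pow_add]
  exact h (s + j)

theorem B01.div10 {z : ℕ} (h : B01 z) : B01 (z / 10) := by
  have := h.div 1
  simpa using this

theorem mod_digit (z s j : ℕ) : z % 10 ^ s / 10 ^ j % 10 = if j < s then z / 10 ^ j % 10 else 0 := by
  split_ifs with h
  · obtain ⟨r, rfl⟩ : ∃ r, s = j + 1 + r := ⟨s - (j + 1), by omega⟩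
    have h1 : z % 10 ^ (j + 1 + r) / 10 ^ j = z / 10 ^ j % 10 ^ (1 + r) := by
      rw [show j + 1 + r = j + (1 + r) by ring, pow_add, Nat.mod_mul_right_div_self]
    rw [h1]
    exact Nat.mod_mod_of_dvd _ (dvd_pow_self 10 (by omega))
  · have h1 : z % 10 ^ s < 10 ^ j :=
      lt_of_lt_of_le (Nat.mod_lt _ (by positivity)) (Nat.pow_le_pow_right (by norm_num) (by omega))
    rw [Nat.div_eq_of_lt h1]

theorem B01.mod {z : ℕ} (h : B01 z) (s : ℕ) : B01 (z % 10 ^ s) := by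
  intro j
  rw [mod_digit]
  split_ifs
  · exact h j
  · omega

theorem B01.zero : B01 0 := by intro j; simp

theorem B01.cons {x y : ℕ} (hx : x ≤ 1) (hy : B01 y) : B01 (x + 10 * y) := by
  intro j
  cases j with
  | zero => simp; omega
  | succ j =>
    rw [pow_succ', ← Nat.div_div_eq_div_mul]
    have : (x + 10 * y) / 10 = y := by omega
    rw [this]
    exact hy j

open Classical in
/-- Numbers below `10 ^ m` all of whose digits are 0 or 1. -/
noncomputable def W (m : ℕ) : Finset ℕ := (Finset.range (10 ^ m)).filter B01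

theorem mem_W {m z : ℕ} : z ∈ W m ↔ z < 10 ^ m ∧ B01 z := by
  classical
  simp [W]

theorem W_card (m : ℕ) : (W m).card ≤ 2 ^ m := by
  classical
  induction m with
  | zero =>
    have : W 0 ⊆ {0} := by
      intro z hz
      rw [mem_W] at hz
      simp at hz ⊢
      exact hz.1
    simpa using Finset.card_le_card this
  | succ m ih =>
    have h1 : (W (m + 1)).card ≤ (W m ×ˢ Finset.range 2).card := by
      apply Finset.card_le_card_of_injOn (fun z => (z / 10, z % 10))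
      · intro z hz
        have hz' := mem_W.1 (Finset.mem_coe.1 hz)
        simp only [Finset.coe_product, Set.mem_prod, Finset.mem_coe, mem_W, Finset.mem_range]
        refine ⟨⟨?_, hz'.2.div10⟩, ?_⟩
        · have := hz'.1
          rw [pow_succ] at this
          omega
        · have := hz'.2 0
          simp at this
          omega
      · intro z _ y _ hzy
        simp only [Prod.mk.injEq] at hzy
        omega
    rw [Finset.card_product, Finset.card_range] at h1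
    rw [pow_succ]
    exact h1.trans (Nat.mul_le_mul_right _ ih)

/-- Top differing position. -/
theorem top_diff {x y : ℕ} (hx : B01 x) (hy : B01 y) (h : y < x) :
    ∃ p, x / 10 ^ (p + 1) = y / 10 ^ (p + 1) ∧ x / 10 ^ p % 10 = 1 ∧ y / 10 ^ p % 10 = 0 := by
  classical
  have hex : ∃ P, x / 10 ^ P = y / 10 ^ P := by
    refine ⟨x, ?_⟩
    have h1 : x < 10 ^ x := Nat.lt_pow_self (by norm_num)
    rw [Nat.div_eq_of_lt h1, Nat.div_eq_of_lt (h.trans h1)]
  set P := Nat.find hex with hP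
  have hPs : x / 10 ^ P = y / 10 ^ P := Nat.find_spec hex
  have hP0 : P ≠ 0 := by
    intro h0
    rw [h0] at hPs
    simp at hPs
    omega
  obtain ⟨p, hp⟩ : ∃ p, P = p + 1 := ⟨P - 1, by omega⟩
  rw [hp] at hPs
  have hne : x / 10 ^ p ≠ y / 10 ^ p := Nat.find_min hex (by omega)
  refine ⟨p, hPs, ?_⟩
  have hle : y / 10 ^ p ≤ x / 10 ^ p := Nat.div_le_div_right h.le
  rw [pow_succ, ← Nat.div_div_eq_div_mul, ← Nat.div_div_eq_div_mul] at hPs
  have h1 := hx p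
  have h2 := hy p
  omega

/-- Bounds for the difference in terms of the top differing position. -/
theorem diff_bounds {x y p : ℕ} (hx : B01 x) (hy : B01 y)
    (h1 : x / 10 ^ (p + 1) = y / 10 ^ (p + 1)) (h2 : x / 10 ^ p % 10 = 1) (h3 : y / 10 ^ p % 10 = 0) :
    8 * 10 ^ p ≤ 9 * ((x : ℤ) - y) ∧ 9 * ((x : ℤ) - y) ≤ 10 * 10 ^ p := by
  have hxe := Nat.div_add_mod x (10 ^ (p + 1))
  have hye := Nat.div_add_mod y (10 ^ (p + 1))
  rw [Nat.mod_pow_succ, h2] at hxe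
  rw [Nat.mod_pow_succ, h3] at hye
  rw [← h1] at hye
  have hxm := mod_le hx p
  have hym := mod_le hy p
  have hR := nine_R p
  set A := 10 ^ (p + 1) * (x / 10 ^ (p + 1)) with hA
  have e1 : (x : ℤ) = A + ((x % 10 ^ p : ℕ) : ℤ) + 10 ^ p := by
    have : x = A + (x % 10 ^ p) + 10 ^ p := by omega
    exact_mod_cast this
  have e2 : (y : ℤ) = A + ((y % 10 ^ p : ℕ) : ℤ) := by
    have : y = A + (y % 10 ^ p) := by omega
    exact_mod_cast this
  have hR' : 9 * (R p : ℤ) + 1 = 10 ^ p := by exact_mod_cast hR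
  have hxm' : ((x % 10 ^ p : ℕ) : ℤ) ≤ R p := by exact_mod_cast hxm
  have hym' : ((y % 10 ^ p : ℕ) : ℤ) ≤ R p := by exact_mod_cast hym
  have hx0 : (0 : ℤ) ≤ ((x % 10 ^ p : ℕ) : ℤ) := by positivity
  have hy0 : (0 : ℤ) ≤ ((y % 10 ^ p : ℕ) : ℤ) := by positivity
  rw [e1, e2]
  constructor <;> linarith

theorem prefix_mono {x y P Q : ℕ} (h : x / 10 ^ P = y / 10 ^ P) (hPQ : P ≤ Q) :
    x / 10 ^ Q = y / 10 ^ Q := by
  obtain ⟨r, rfl⟩ : ∃ r, Q = P + r := ⟨Q - P, by omega⟩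
  rw [pow_add, ← Nat.div_div_eq_div_mul, ← Nat.div_div_eq_div_mul, h]

/-- If the prefixes above `P` and the digits between agree then the numbers have equal shorter quotient. -/
theorem prefix_of_digits {x y P Q : ℕ} (h : x / 10 ^ P = y / 10 ^ P) (hQP : Q ≤ P)
    (hd : ∀ j, Q ≤ j → j < P → x / 10 ^ j % 10 = y / 10 ^ j % 10) : x / 10 ^ Q = y / 10 ^ Q := by
  obtain ⟨r, rfl⟩ : ∃ r, P = Q + r := ⟨P - Q, by omega⟩
  clear hQP
  induction r with
  | zero => simpa using h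
  | succ r ih =>
    apply ih
    · have h1 := hd (Q + r) (by omega) (by omega)
      rw [show Q + (r + 1) = Q + r + 1 by ring, pow_succ, ← Nat.div_div_eq_div_mul,
        ← Nat.div_div_eq_div_mul] at h
      omega
    · intro j hj1 hj2
      exact hd j hj1 (by omega)

/-- The top differing position is unique. -/
theorem top_unique {x y p q : ℕ} (h1 : x / 10 ^ (p + 1) = y / 10 ^ (p + 1))
    (h2 : x / 10 ^ p % 10 ≠ y / 10 ^ p % 10)
    (h3 : x / 10 ^ (q + 1) = y / 10 ^ (q + 1)) (h4 : x / 10 ^ q % 10 ≠ y / 10 ^ q % 10) : p = q := by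
  rcases lt_trichotomy p q with h | h | h
  · exact absurd (by rw [prefix_mono h1 (show p + 1 ≤ q by omega)]) h4
  · exact h
  · exact absurd (by rw [prefix_mono h3 (show q + 1 ≤ p by omega)]) h2

/-- The second difference of four 0/1 numbers. -/
theorem second_diff {x y x' y' : ℕ} (hx : B01 x) (hy : B01 y) (hx' : B01 x') (hy' : B01 y')
    (he : 0 < ((x' : ℤ) - y') - ((x : ℤ) - y)) :
    ∃ q, 1 ≤ (((x' / 10 ^ q % 10 : ℕ) : ℤ) - ((y' / 10 ^ q % 10 : ℕ) : ℤ)) -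
        (((x / 10 ^ q % 10 : ℕ) : ℤ) - ((y / 10 ^ q % 10 : ℕ) : ℤ)) ∧
      7 * 10 ^ q ≤ 9 * (((x' : ℤ) - y') - ((x : ℤ) - y)) ∧
      9 * (((x' : ℤ) - y') - ((x : ℤ) - y)) ≤ 20 * 10 ^ q := by
  classical
  have hex : ∃ P : ℕ, (((x' / 10 ^ P : ℕ) : ℤ) - ((y' / 10 ^ P : ℕ) : ℤ)) -
        (((x / 10 ^ P : ℕ) : ℤ) - ((y / 10 ^ P : ℕ) : ℤ)) = 0 := by
    refine ⟨x + y + x' + y', ?_⟩
    have h1 : x + y + x' + y' < 10 ^ (x + y + x' + y') := Nat.lt_pow_self (by norm_num)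
    rw [Nat.div_eq_of_lt (show x < _ by omega), Nat.div_eq_of_lt (show y < _ by omega),
      Nat.div_eq_of_lt (show x' < _ by omega), Nat.div_eq_of_lt (show y' < _ by omega)]
    simp
  set P := Nat.find hex with hP
  have hPs := Nat.find_spec hex
  rw [← hP] at hPs
  have hP0 : P ≠ 0 := by
    intro h0
    rw [h0] at hPs
    simp only [pow_zero, Nat.div_one] at hPs
    omega
  obtain ⟨q, hq⟩ : ∃ q, P = q + 1 := ⟨P - 1, by omega⟩
  rw [hq] at hPs
  have hne := Nat.find_min hex (show q < P by omega)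
  have split : ∀ u : ℕ, u / 10 ^ q = 10 * (u / 10 ^ (q + 1)) + u / 10 ^ q % 10 := by
    intro u
    rw [pow_succ, ← Nat.div_div_eq_div_mul]
    omega
  have split2 : ∀ u : ℕ, u = 10 ^ q * (u / 10 ^ q) + u % 10 ^ q := fun u => (Nat.div_add_mod u _).symm
  have cast1 : ∀ u : ℕ, ((u / 10 ^ q : ℕ) : ℤ) = 10 * ((u / 10 ^ (q + 1) : ℕ) : ℤ) +
      ((u / 10 ^ q % 10 : ℕ) : ℤ) := by
    intro u
    exact_mod_cast split u
  have cast2 : ∀ u : ℕ, (u : ℤ) = 10 ^ q * ((u / 10 ^ q : ℕ) : ℤ) + ((u % 10 ^ q : ℕ) : ℤ) := by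
    intro u
    exact_mod_cast split2 u
  set G : ℤ := (((x' / 10 ^ q % 10 : ℕ) : ℤ) - ((y' / 10 ^ q % 10 : ℕ) : ℤ)) -
        (((x / 10 ^ q % 10 : ℕ) : ℤ) - ((y / 10 ^ q % 10 : ℕ) : ℤ)) with hG
  have hE : (((x' / 10 ^ q : ℕ) : ℤ) - ((y' / 10 ^ q : ℕ) : ℤ)) -
        (((x / 10 ^ q : ℕ) : ℤ) - ((y / 10 ^ q : ℕ) : ℤ)) = G := by
    rw [cast1 x, cast1 y, cast1 x', cast1 y', hG]
    linarith
  have hG0 : G ≠ 0 := by rw [← hE]; exact hne
  have b1 := mod_le hx q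
  have b2 := mod_le hy q
  have b3 := mod_le hx' q
  have b4 := mod_le hy' q
  have hR := nine_R q
  have hR' : 9 * (R q : ℤ) + 1 = 10 ^ q := by exact_mod_cast hR
  have c1 : ((x % 10 ^ q : ℕ) : ℤ) ≤ R q := by exact_mod_cast b1
  have c2 : ((y % 10 ^ q : ℕ) : ℤ) ≤ R q := by exact_mod_cast b2
  have c3 : ((x' % 10 ^ q : ℕ) : ℤ) ≤ R q := by exact_mod_cast b3
  have c4 : ((y' % 10 ^ q : ℕ) : ℤ) ≤ R q := by exact_mod_cast b4
  have d1 : (0 : ℤ) ≤ ((x % 10 ^ q : ℕ) : ℤ) := by positivity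
  have d2 : (0 : ℤ) ≤ ((y % 10 ^ q : ℕ) : ℤ) := by positivity
  have d3 : (0 : ℤ) ≤ ((x' % 10 ^ q : ℕ) : ℤ) := by positivity
  have d4 : (0 : ℤ) ≤ ((y' % 10 ^ q : ℕ) : ℤ) := by positivity
  have hee : ((x' : ℤ) - y') - ((x : ℤ) - y) = 10 ^ q * G +
      ((((x' % 10 ^ q : ℕ) : ℤ) - ((y' % 10 ^ q : ℕ) : ℤ)) -
        (((x % 10 ^ q : ℕ) : ℤ) - ((y % 10 ^ q : ℕ) : ℤ))) := by
    linear_combination (cast2 x') - (cast2 y') - (cast2 x) + (cast2 y) + 10 ^ q * hE
  have hpos : (0 : ℤ) < 10 ^ q := by positivity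
  have g1 := hx q
  have g2 := hy q
  have g3 := hx' q
  have g4 := hy' q
  have hG2 : G ≤ 2 := by
    rw [hG]
    have k3 : ((x' / 10 ^ q % 10 : ℕ) : ℤ) ≤ 1 := by exact_mod_cast g3
    have k2 : ((y / 10 ^ q % 10 : ℕ) : ℤ) ≤ 1 := by exact_mod_cast g2
    have k1 : (0 : ℤ) ≤ ((x / 10 ^ q % 10 : ℕ) : ℤ) := by positivity
    have k4 : (0 : ℤ) ≤ ((y' / 10 ^ q % 10 : ℕ) : ℤ) := by positivity
    linarith
  have hG1 : 1 ≤ G := by
    by_contra hcon
    have hle : G ≤ -1 := by omega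
    have : 10 ^ q * G ≤ 10 ^ q * (-1) := by
      apply mul_le_mul_of_nonneg_left hle hpos.le
    rw [hee] at he
    nlinarith
  refine ⟨q, hG1, ?_, ?_⟩
  · rw [hee]
    have : 10 ^ q * 1 ≤ 10 ^ q * G := mul_le_mul_of_nonneg_left hG1 hpos.le
    linarith
  · rw [hee]
    have : 10 ^ q * G ≤ 10 ^ q * 2 := mul_le_mul_of_nonneg_left hG2 hpos.le
    linarith

end Pool.Agent.TDS
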