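import Mathlib
import Pool.Agent.TDS.Basic

/-! The rectangle lemma for squares with two digits. -/

namespace Pool.Agent.TDS

/-- `k ^ 2` has `n` digits, all of them equal to `a` or `a + d`, and `25` does not divide `k`. -/
def Sq (a d n k : ℕ) : Prop :=
  10 ^ n ≤ 10 * k ^ 2 ∧ k ^ 2 < 10 ^ n ∧ ¬ 25 ∣ k ∧
    ∃ z, z < 10 ^ n ∧ B01 z ∧ k ^ 2 = a * R n + d * z

/-- The 0/1 number recording the positions of the larger digit. -/
def zf (a d n k : ℕ) : ℕ := (k ^ 2 - a * R n) / d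

theorem zf_spec {a d n k : ℕ} (hd : 1 ≤ d) (h : Sq a d n k) :
    zf a d n k < 10 ^ n ∧ B01 (zf a d n k) ∧ k ^ 2 = a * R n + d * zf a d n k := by
  obtain ⟨_, _, _, z, hz1, hz2, hz3⟩ := h
  have : zf a d n k = z := by
    unfold zf
    rw [hz3, Nat.add_sub_cancel_left, Nat.mul_div_cancel_left _ (by omega)]
  rw [this]
  exact ⟨hz1, hz2, hz3⟩

theorem Sq_size {a d n k h : ℕ} (hh : 1 ≤ h) (hn1 : n ≤ 2 * h) (hn2 : 2 * h ≤ n + 1)
    (hk : Sq a d n k) : 10 ^ (h - 1) ≤ k ∧ k < 10 ^ h := by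
  obtain ⟨h1, h2, _, _⟩ := hk
  constructor
  · by_contra hcon
    push Not at hcon
    have h3 : k ^ 2 < (10 ^ (h - 1)) ^ 2 := Nat.pow_lt_pow_left hcon (by norm_num)
    have h4 : 10 * (10 ^ (h - 1)) ^ 2 ≤ 10 ^ n := by
      rw [← pow_mul, ← pow_succ']
      exact Nat.pow_le_pow_right (by norm_num) (by omega)
    omega
  · by_contra hcon
    push Not at hcon
    have h3 : (10 ^ h) ^ 2 ≤ k ^ 2 := Nat.pow_le_pow_left hcon 2
    have h4 : 10 ^ n ≤ (10 ^ h) ^ 2 := by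
      rw [← pow_mul]
      exact Nat.pow_le_pow_right (by norm_num) (by omega)
    omega

theorem pow_lt_of {p q : ℕ} (h : (10 : ℤ) ^ p < 10 ^ (q + 1)) : p ≤ q := by
  have := (pow_lt_pow_iff_right₀ (by norm_num : (1 : ℤ) < 10)).1 h
  omega

theorem ratio_lower {q s p : ℕ} {δ e K T : ℤ} (hpow : (10 : ℤ) ^ p = 10 ^ q * 10 ^ s) (hδ : 0 < δ)
    (he : 0 < e) (hK : 0 < K) (F3 : e * K = T * δ) (q2 : 7 * 10 ^ q ≤ 9 * e)
    (B2 : 9 * δ ≤ 10 * 10 ^ p) : 7 * K ≤ 10 ^ (s + 1) * T := by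
  have hq : (0 : ℤ) < 10 ^ q := by positivity
  have h1 : 7 * 10 ^ q * (9 * δ) ≤ 9 * e * (10 * 10 ^ p) :=
    mul_le_mul q2 B2 (by positivity) (by positivity)
  have h2 : 10 ^ q * δ * (7 * K) ≤ 10 ^ q * δ * (10 ^ (s + 1) * T) := by
    have h3 := mul_le_mul_of_nonneg_right h1 hK.le
    have h4 : 9 * e * (10 * 10 ^ p) * K = 9 * (10 ^ q * δ * (10 ^ (s + 1) * T)) := by
      rw [hpow, pow_succ]
      linear_combination 90 * 10 ^ q * 10 ^ s * F3
    have h5 : 7 * 10 ^ q * (9 * δ) * K = 9 * (10 ^ q * δ * (7 * K)) := by ring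
    rw [h4, h5] at h3
    exact le_of_mul_le_mul_left h3 (by norm_num)
  exact le_of_mul_le_mul_left h2 (mul_pos hq hδ)

theorem ratio_upper {q s p : ℕ} {δ e K T : ℤ} (hpow : (10 : ℤ) ^ p = 10 ^ q * 10 ^ s) (hδ : 0 < δ)
    (_he : 0 < e) (hK : 0 < K) (F3 : e * K = T * δ) (q3 : 9 * e ≤ 20 * 10 ^ q)
    (B1 : 8 * 10 ^ p ≤ 9 * δ) : 2 * 10 ^ s * T ≤ 5 * K := by
  have hq : (0 : ℤ) < 10 ^ q := by positivity
  have h1 : 9 * e * (8 * 10 ^ p) ≤ 20 * 10 ^ q * (9 * δ) :=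
    mul_le_mul q3 B1 (by positivity) (by positivity)
  have h2 : 10 ^ q * δ * (2 * 10 ^ s * T) ≤ 10 ^ q * δ * (5 * K) := by
    have h3 := mul_le_mul_of_nonneg_right h1 hK.le
    have h4 : 9 * e * (8 * 10 ^ p) * K = 36 * (10 ^ q * δ * (2 * 10 ^ s * T)) := by
      rw [hpow]
      linear_combination 72 * 10 ^ q * 10 ^ s * F3
    have h5 : 20 * 10 ^ q * (9 * δ) * K = 36 * (10 ^ q * δ * (5 * K)) := by ring
    rw [h4, h5] at h3
    exact le_of_mul_le_mul_left h3 (by norm_num)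
  exact le_of_mul_le_mul_left h2 (mul_pos hq hδ)

theorem rect {a d n i h t t' v1 v2 : ℕ} (hd : 1 ≤ d) (hd9 : d ≤ 9) (hh : 1 ≤ h)
    (hn1 : n ≤ 2 * h) (hn2 : 2 * h ≤ n + 1) (htt : t < t') (hv : v2 < v1) (hv1 : v1 < 10 ^ i)
    (h11 : Sq a d n (t * 10 ^ i + v1)) (h12 : Sq a d n (t * 10 ^ i + v2))
    (h21 : Sq a d n (t' * 10 ^ i + v1)) (h22 : Sq a d n (t' * 10 ^ i + v2)) :
    ∃ p s, 1 ≤ s ∧ s ≤ p ∧ h ≤ p + 1 ∧ p ≤ h + i ∧
      zf a d n (t * 10 ^ i + v1) / 10 ^ (p + 1) = zf a d n (t * 10 ^ i + v2) / 10 ^ (p + 1) ∧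
      zf a d n (t * 10 ^ i + v1) / 10 ^ p % 10 = 1 ∧ zf a d n (t * 10 ^ i + v2) / 10 ^ p % 10 = 0 ∧
      ¬ (zf a d n (t * 10 ^ i + v1) / 10 ^ (p - s) % 10 = 1 ∧
        zf a d n (t * 10 ^ i + v2) / 10 ^ (p - s) % 10 = 0) ∧
      7 * (((t : ℤ) * 10 ^ i + v1) + (t * 10 ^ i + v2)) ≤ 10 ^ (s + 1) * (2 * ((t' : ℤ) - t) * 10 ^ i) ∧
      2 * 10 ^ s * (2 * ((t' : ℤ) - t) * 10 ^ i) ≤ 5 * (((t : ℤ) * 10 ^ i + v1) + (t * 10 ^ i + v2)) := by
  have sz11 := Sq_size hh hn1 hn2 h11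
  have sz12 := Sq_size hh hn1 hn2 h12
  have lt4 : ∀ {k k' : ℕ}, Sq a d n k → Sq a d n k' → k' < 4 * k := by
    intro k k' hk hk'
    have h1 := hk.1
    have h2 := hk'.2.1
    by_contra hcon
    push Not at hcon
    have h3 : (4 * k) ^ 2 ≤ k' ^ 2 := Nat.pow_le_pow_left hcon 2
    have h4 : 0 < k ^ 2 := by
      rcases Nat.eq_zero_or_pos (k ^ 2) with h0 | h0
      · rw [h0] at h1
        have : 0 < 10 ^ n := by positivity
        omega
      · exact h0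
    have h5 : (4 * k) ^ 2 = 16 * k ^ 2 := by ring
    omega
  have l1 := lt4 h11 h21
  have l2 := lt4 h12 h22
  obtain ⟨b11, c11, e11⟩ := zf_spec hd h11
  obtain ⟨b12, c12, e12⟩ := zf_spec hd h12
  obtain ⟨b21, c21, e21⟩ := zf_spec hd h21
  obtain ⟨b22, c22, e22⟩ := zf_spec hd h22
  set x := zf a d n (t * 10 ^ i + v1) with hx
  set y := zf a d n (t * 10 ^ i + v2) with hy
  set x' := zf a d n (t' * 10 ^ i + v1) with hx'
  set y' := zf a d n (t' * 10 ^ i + v2) with hy'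
  have E11 : ((t : ℤ) * 10 ^ i + v1) ^ 2 = a * R n + d * x := by exact_mod_cast e11
  have E12 : ((t : ℤ) * 10 ^ i + v2) ^ 2 = a * R n + d * y := by exact_mod_cast e12
  have E21 : ((t' : ℤ) * 10 ^ i + v1) ^ 2 = a * R n + d * x' := by exact_mod_cast e21
  have E22 : ((t' : ℤ) * 10 ^ i + v2) ^ 2 = a * R n + d * y' := by exact_mod_cast e22
  have S11 : (10 : ℤ) ^ (h - 1) ≤ (t : ℤ) * 10 ^ i + v1 := by exact_mod_cast sz11.1
  have S11' : (t : ℤ) * 10 ^ i + v1 < 10 ^ h := by exact_mod_cast sz11.2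
  have S12 : (10 : ℤ) ^ (h - 1) ≤ (t : ℤ) * 10 ^ i + v2 := by exact_mod_cast sz12.1
  have S12' : (t : ℤ) * 10 ^ i + v2 < 10 ^ h := by exact_mod_cast sz12.2
  have L1 : (t' : ℤ) * 10 ^ i + v1 < 4 * ((t : ℤ) * 10 ^ i + v1) := by exact_mod_cast l1
  have L2 : (t' : ℤ) * 10 ^ i + v2 < 4 * ((t : ℤ) * 10 ^ i + v2) := by exact_mod_cast l2
  have hM : (0 : ℤ) < 10 ^ i := by positivity
  have hV : (0 : ℤ) < (v1 : ℤ) - v2 := by
    have : (v2 : ℤ) < v1 := by exact_mod_cast hv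
    linarith
  have hV' : (v1 : ℤ) - v2 < 10 ^ i := by
    have h1 : (v1 : ℤ) < 10 ^ i := by exact_mod_cast hv1
    have h2 : (0 : ℤ) ≤ v2 := by positivity
    linarith
  have hT : (0 : ℤ) < (t' : ℤ) - t := by
    have : (t : ℤ) < t' := by exact_mod_cast htt
    linarith
  have hD : (1 : ℤ) ≤ d := by exact_mod_cast hd
  have hD9 : (d : ℤ) ≤ 9 := by exact_mod_cast hd9
  have hDpos : (0 : ℤ) < d := by linarith
  set K : ℤ := ((t : ℤ) * 10 ^ i + v1) + (t * 10 ^ i + v2) with hK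
  set T : ℤ := 2 * ((t' : ℤ) - t) * 10 ^ i with hTdef
  have hKpos : 0 < K := by
    have : (0 : ℤ) < 10 ^ (h - 1) := by positivity
    rw [hK]; linarith
  have hTpos : 0 < T := by rw [hTdef]; positivity
  have F1 : (d : ℤ) * ((x : ℤ) - y) = ((v1 : ℤ) - v2) * K := by
    rw [hK]; linear_combination E12 - E11
  have F2 : (d : ℤ) * (((x' : ℤ) - y') - ((x : ℤ) - y)) = ((v1 : ℤ) - v2) * T := by
    rw [hTdef]; linear_combination E22 - E21 - (E12 - E11)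
  have hδ : 0 < (x : ℤ) - y := by
    have : 0 < (d : ℤ) * ((x : ℤ) - y) := by rw [F1]; positivity
    exact (pos_iff_pos_of_mul_pos this).1 hDpos
  have he : 0 < ((x' : ℤ) - y') - ((x : ℤ) - y) := by
    have : 0 < (d : ℤ) * (((x' : ℤ) - y') - ((x : ℤ) - y)) := by rw [F2]; positivity
    exact (pos_iff_pos_of_mul_pos this).1 hDpos
  have F3 : (((x' : ℤ) - y') - ((x : ℤ) - y)) * K = T * ((x : ℤ) - y) := by
    have : (d : ℤ) * ((((x' : ℤ) - y') - ((x : ℤ) - y)) * K) = d * (T * ((x : ℤ) - y)) := by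
      linear_combination K * F2 - T * F1
    exact mul_left_cancel₀ hDpos.ne' this
  have F4 : ((x' : ℤ) - y') - ((x : ℤ) - y) < 3 * ((x : ℤ) - y) := by
    have h1 : T < 3 * K := by
      rw [hTdef, hK]; linarith
    have h2 : (((x' : ℤ) - y') - ((x : ℤ) - y)) * K < 3 * ((x : ℤ) - y) * K := by
      rw [F3]
      have := mul_lt_mul_of_pos_right h1 hδ
      linarith
    exact lt_of_mul_lt_mul_right h2 hKpos.le
  have hyx : y < x := by
    have : (y : ℤ) < x := by linarith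
    exact_mod_cast this
  obtain ⟨p, p1, p2, p3⟩ := top_diff c11 c12 hyx
  obtain ⟨B1, B2⟩ := diff_bounds c11 c12 p1 p2 p3
  obtain ⟨q, q1, q2, q3⟩ := second_diff c11 c12 c21 c22 he
  have hx'1 : ∀ j, ((x' / 10 ^ j % 10 : ℕ) : ℤ) ≤ 1 := fun j => by exact_mod_cast c21 j
  have hy'0 : ∀ j, (0 : ℤ) ≤ ((y' / 10 ^ j % 10 : ℕ) : ℤ) := fun j => by positivity
  set δ : ℤ := (x : ℤ) - y with hδdef
  set e : ℤ := ((x' : ℤ) - y') - δ with hedef
  have hpp : (0 : ℤ) < 10 ^ p := by positivity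
  have hqq : (0 : ℤ) < 10 ^ q := by positivity
  have hnot : ¬ (x / 10 ^ q % 10 = 1 ∧ y / 10 ^ q % 10 = 0) := by
    rintro ⟨h1, h2⟩
    rw [h1, h2, Nat.cast_one, Nat.cast_zero] at q1
    have w1 := hx'1 q
    have w2 := hy'0 q
    linarith
  have hqp : q ≤ p := by
    apply pow_lt_of
    rw [pow_succ]
    linarith
  have hqp' : q < p := by
    rcases Nat.lt_or_eq_of_le hqp with h1 | h1
    · exact h1
    · subst h1
      exact absurd ⟨p2, p3⟩ hnot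
  obtain ⟨s, hs⟩ : ∃ s, p = q + s := ⟨p - q, by omega⟩
  have hps : p - s = q := by omega
  have hpow : (10 : ℤ) ^ p = 10 ^ q * 10 ^ s := by rw [hs, pow_add]
  refine ⟨p, s, by omega, by omega, ?_, ?_, p1, p2, p3, ?_, ?_, ?_⟩
  · have : h - 1 ≤ p := by
      apply pow_lt_of
      rw [pow_succ]
      have h1 : 9 * ((d : ℤ) * δ) ≤ d * (10 * 10 ^ p) := by
        have := mul_le_mul_of_nonneg_left B2 hDpos.le
        linarith
      have h2 : (d : ℤ) * (10 * 10 ^ p) ≤ 9 * (10 * 10 ^ p) := by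
        apply mul_le_mul_of_nonneg_right hD9; positivity
      have h3 : K ≤ ((v1 : ℤ) - v2) * K := by
        have h31 : (1 : ℤ) ≤ (v1 : ℤ) - v2 := by linarith
        have := mul_le_mul_of_nonneg_right h31 hKpos.le
        linarith
      have h4 : 2 * 10 ^ (h - 1) ≤ K := by rw [hK]; linarith
      have h5 : (0 : ℤ) < 10 ^ (h - 1) := by positivity
      rw [F1] at h1
      linarith
    omega
  · apply pow_lt_of
    have h1 : δ ≤ d * δ := by
      have := mul_le_mul_of_nonneg_right hD hδ.le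
      linarith
    have h2 : ((v1 : ℤ) - v2) * K < 10 ^ i * (2 * 10 ^ h) := by
      have h3 : K < 2 * 10 ^ h := by rw [hK]; linarith
      exact mul_lt_mul'' hV' h3 hV.le hKpos.le
    rw [F1] at h1
    have h4 : (10 : ℤ) ^ (h + i + 1) = 10 * (10 ^ i * 10 ^ h) := by ring
    rw [h4]
    have h5 : (0 : ℤ) < 10 ^ i * 10 ^ h := by positivity
    linarith
  · rw [hps]; exact hnot
  · exact ratio_lower hpow hδ he hKpos F3 q2 B2
  · exact ratio_upper hpow hδ he hKpos F3 q3 B1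

end Pool.Agent.TDS
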