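import Mathlib

/-! The tree lemma: sets of 0/1 strings with a delayed constraint have golden ratio growth. -/

namespace Pool.Agent.TDS

open Real

theorem tree_lemma {ι : Type*} (s : ℕ) (hs : 1 ≤ s) (β : ι → ℕ → ℕ) (hβ : ∀ x j, β x j ≤ 1)
    (l : ℕ) : ∀ (A : Finset ι) (F : Finset ℕ), (∀ f ∈ F, l ≤ f ∧ f < l + s) →
    (∀ x ∈ A, ∀ y ∈ A, (∀ j < l, β x j = β y j) → x = y) →
    (∀ f ∈ F, s ≤ f → ∀ x ∈ A, ∀ y ∈ A, β x (f - s) = β y (f - s)) →
    (∀ x ∈ A, ∀ y ∈ A, ∀ p, p < l → s ≤ p → (∀ j, p < j → j < l → β x j = β y j) →
      β x p = 1 → β y p = 0 → ¬ (β x (p - s) = 1 ∧ β y (p - s) = 0)) →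
    (A.card : ℝ) ≤ goldenRatio ^ (l + s - F.card) := by
  classical
  have hcardF : ∀ (l : ℕ) (F : Finset ℕ), (∀ f ∈ F, l ≤ f ∧ f < l + s) → F.card ≤ s := by
    intro l F hF
    have h1 : F ⊆ Finset.Ico l (l + s) := by
      intro f hf
      rw [Finset.mem_Ico]
      exact hF f hf
    have := Finset.card_le_card h1
    simpa using this
  have hφ1 : (1 : ℝ) ≤ goldenRatio := one_lt_goldenRatio.le
  induction l with
  | zero =>
    intro A F hF hdet _ _
    have h1 : A.card ≤ 1 := by
      rw [Finset.card_le_one]
      intro x hx y hy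
      exact hdet x hx y hy (fun j hj => absurd hj (by omega))
    have h2 : (1 : ℝ) ≤ goldenRatio ^ (0 + s - F.card) := one_le_pow₀ hφ1
    calc (A.card : ℝ) ≤ 1 := by exact_mod_cast h1
      _ ≤ _ := h2
  | succ l ih =>
    intro A F hF hdet hforced hcon
    by_cases hmem : l + s ∈ F
    · have hF' : ∀ f ∈ F.erase (l + s), l ≤ f ∧ f < l + s := by
        intro f hf
        rw [Finset.mem_erase] at hf
        have := hF f hf.2
        omega
      have htop : ∀ x ∈ A, ∀ y ∈ A, β x l = β y l := by
        intro x hx y hy
        have := hforced (l + s) hmem (by omega) x hx y hy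
        simpa using this
      have h := ih A (F.erase (l + s)) hF' ?_ ?_ ?_
      · have hc := Finset.card_erase_of_mem hmem
        have hpos : 0 < F.card := Finset.card_pos.2 ⟨_, hmem⟩
        have hle := hcardF _ F hF
        rw [hc] at h
        have e : l + s - (F.card - 1) = l + 1 + s - F.card := by omega
        rwa [e] at h
      · intro x hx y hy hj
        apply hdet x hx y hy
        intro j hjl
        rcases Nat.lt_succ_iff_lt_or_eq.1 hjl with h1 | h1
        · exact hj j h1
        · subst h1
          exact htop x hx y hy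
      · intro f hf hsf x hx y hy
        exact hforced f (Finset.mem_of_mem_erase hf) hsf x hx y hy
      · intro x hx y hy p hp hsp hj h1 h0
        apply hcon x hx y hy p (by omega) hsp _ h1 h0
        intro j hpj hjl
        rcases Nat.lt_succ_iff_lt_or_eq.1 hjl with h1 | h1
        · exact hj j hpj h1
        · subst h1
          exact htop x hx y hy
    · set A1 := A.filter (fun x => β x l = 1) with hA1
      set A0 := A.filter (fun x => ¬ β x l = 1) with hA0
      have hsplit : A1.card + A0.card = A.card := Finset.card_filter_add_card_filter_not _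
      have m1 : ∀ x ∈ A1, x ∈ A ∧ β x l = 1 := fun x hx => by
        rw [hA1, Finset.mem_filter] at hx; exact hx
      have m0 : ∀ x ∈ A0, x ∈ A ∧ β x l = 0 := fun x hx => by
        rw [hA0, Finset.mem_filter] at hx
        have := hβ x l
        exact ⟨hx.1, by omega⟩
      have hFl : ∀ f ∈ F, l ≤ f ∧ f < l + s := by
        intro f hf
        have h1 := hF f hf
        have h2 : f ≠ l + s := fun h => hmem (h ▸ hf)
        omega
      have hFl1 : ∀ f ∈ insert l F, l ≤ f ∧ f < l + s := by
        intro f hf
        rw [Finset.mem_insert] at hf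
        rcases hf with rfl | hf
        · omega
        · exact hFl f hf
      have hlF : l ∉ F := fun h => by have := hF l h; omega
      have hcI : (insert l F).card = F.card + 1 := Finset.card_insert_of_notMem hlF
      have hcs : F.card + 1 ≤ s := by rw [← hcI]; exact hcardF l _ hFl1
      -- general application of the induction hypothesis
      have key : ∀ (B : Finset ι) (c : ℕ), (∀ x ∈ B, x ∈ A ∧ β x l = c) → ∀ F' : Finset ℕ,
          (∀ f ∈ F', l ≤ f ∧ f < l + s) →
          (∀ f ∈ F', s ≤ f → ∀ x ∈ B, ∀ y ∈ B, β x (f - s) = β y (f - s)) →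
          (B.card : ℝ) ≤ goldenRatio ^ (l + s - F'.card) := by
        intro B c hB F' hF' hfor
        refine ih B F' hF' ?_ hfor ?_
        · intro x hx y hy hj
          apply hdet x (hB x hx).1 y (hB y hy).1
          intro j hjl
          rcases Nat.lt_succ_iff_lt_or_eq.1 hjl with h1 | h1
          · exact hj j h1
          · subst h1
            rw [(hB x hx).2, (hB y hy).2]
        · intro x hx y hy p hp hsp hj h1 h0
          apply hcon x (hB x hx).1 y (hB y hy).1 p (by omega) hsp _ h1 h0
          intro j hpj hjl
          rcases Nat.lt_succ_iff_lt_or_eq.1 hjl with h1 | h1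
          · exact hj j hpj h1
          · subst h1
            rw [(hB x hx).2, (hB y hy).2]
      have b1 := key A1 1 m1 F hFl (fun f hf hsf x hx y hy =>
        hforced f hf hsf x (m1 x hx).1 y (m1 y hy).1)
      have b0 := key A0 0 m0 F hFl (fun f hf hsf x hx y hy =>
        hforced f hf hsf x (m0 x hx).1 y (m0 y hy).1)
      obtain ⟨n, hn⟩ : ∃ n, l + s - F.card = n + 1 := ⟨l + s - F.card - 1, by omega⟩
      have hn2 : l + 1 + s - F.card = n + 2 := by omega
      have hn1 : l + s - (F.card + 1) = n := by omega
      have hsq : goldenRatio ^ (n + 2) = goldenRatio ^ (n + 1) + goldenRatio ^ n := by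
        have := goldenRatio_sq
        rw [pow_add, this]
        ring
      have hcast : (A.card : ℝ) = A1.card + A0.card := by exact_mod_cast hsplit.symm
      have hpn : (0 : ℝ) < goldenRatio ^ n := pow_pos goldenRatio_pos n
      rw [hn] at b1 b0
      rw [hn2, hsq, hcast]
      by_cases e1 : A1 = ∅
      · rw [e1]; simp only [Finset.card_empty, Nat.cast_zero]; linarith
      by_cases e0 : A0 = ∅
      · rw [e0]; simp only [Finset.card_empty, Nat.cast_zero]; linarith
      have hdich : (s ≤ l → ∀ x ∈ A1, β x (l - s) = 0) ∨ (s ≤ l → ∀ y ∈ A0, β y (l - s) = 1) := by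
        by_contra hcontra
        push Not at hcontra
        obtain ⟨⟨hsl, x, hx, hx0⟩, ⟨_, y, hy, hy1⟩⟩ := hcontra
        have hx1 := hβ x (l - s)
        have hy1' := hβ y (l - s)
        refine hcon x (m1 x hx).1 y (m0 y hy).1 l (by omega) hsl (fun j h1 h2 => absurd h2 (by omega))
          (m1 x hx).2 (m0 y hy).2 ⟨by omega, by omega⟩
      rcases hdich with h | h
      · have b1' := key A1 1 m1 (insert l F) hFl1 (by
          intro f hf hsf x hx y hy
          rw [Finset.mem_insert] at hf
          rcases hf with rfl | hf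
          · rw [h hsf x hx, h hsf y hy]
          · exact hforced f hf hsf x (m1 x hx).1 y (m1 y hy).1)
        rw [hcI, hn1] at b1'
        linarith
      · have b0' := key A0 0 m0 (insert l F) hFl1 (by
          intro f hf hsf x hx y hy
          rw [Finset.mem_insert] at hf
          rcases hf with rfl | hf
          · rw [h hsf x hx, h hsf y hy]
          · exact hforced f hf hsf x (m0 x hx).1 y (m0 y hy).1)
        rw [hcI, hn1] at b0'
        linarith

end Pool.Agent.TDS
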