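import Mathlib
import Pool.Agent.TDS.Rect
import Pool.Agent.TDS.Tree

/-! Two rows share few columns. -/

namespace Pool.Agent.TDS

open Real

theorem s_unique {sA sB : ℕ} {KA KB T : ℤ} (hA : 0 < KA) (hT : 0 < T)
    (h1 : 7 * KA ≤ 10 ^ (sA + 1) * T) (h2 : 2 * 10 ^ sB * T ≤ 5 * KB) (h3 : KB < 2 * KA) :
    sB ≤ sA := by
  by_contra hcon
  push Not at hcon
  have h4 : (10 : ℤ) ^ (sA + 1) ≤ 10 ^ sB := pow_le_pow_right₀ (by norm_num) (by omega)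
  have h5 : (10 : ℤ) ^ (sA + 1) * T ≤ 10 ^ sB * T := mul_le_mul_of_nonneg_right h4 hT.le
  have h6 : 2 * ((10 : ℤ) ^ sB * T) = 2 * 10 ^ sB * T := by ring
  linarith

/-- If the rows agree above position `P` then the shift is at most `n - P`. -/
theorem shift_bound {a d n i t t' v1 v2 P s : ℕ} (hd : 1 ≤ d) (htt : t < t') (hv : v2 < v1)
    (h11 : Sq a d n (t * 10 ^ i + v1)) (h21 : Sq a d n (t' * 10 ^ i + v1))
    (hP1 : zf a d n (t' * 10 ^ i + v1) / 10 ^ (P + 1) = zf a d n (t * 10 ^ i + v1) / 10 ^ (P + 1))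
    (hP2 : zf a d n (t' * 10 ^ i + v1) / 10 ^ P % 10 = 1)
    (hP3 : zf a d n (t * 10 ^ i + v1) / 10 ^ P % 10 = 0)
    (hs : 2 * 10 ^ s * (2 * ((t' : ℤ) - t) * 10 ^ i) ≤
      5 * (((t : ℤ) * 10 ^ i + v1) + (t * 10 ^ i + v2))) : s + P ≤ n := by
  obtain ⟨b11, c11, e11⟩ := zf_spec hd h11
  obtain ⟨b21, c21, e21⟩ := zf_spec hd h21
  have u11 := h11.2.1
  have u21 := h21.2.1
  obtain ⟨B1, _⟩ := diff_bounds c21 c11 hP1 hP2 hP3
  set x := zf a d n (t * 10 ^ i + v1) with hx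
  set x' := zf a d n (t' * 10 ^ i + v1) with hx'
  have E11 : ((t : ℤ) * 10 ^ i + v1) ^ 2 = a * R n + d * x := by exact_mod_cast e11
  have E21 : ((t' : ℤ) * 10 ^ i + v1) ^ 2 = a * R n + d * x' := by exact_mod_cast e21
  have U11 : ((t : ℤ) * 10 ^ i + v1) ^ 2 < 10 ^ n := by exact_mod_cast u11
  have U21 : ((t' : ℤ) * 10 ^ i + v1) ^ 2 < 10 ^ n := by exact_mod_cast u21
  set k : ℤ := (t : ℤ) * 10 ^ i + v1 with hk
  set k' : ℤ := (t' : ℤ) * 10 ^ i + v1 with hk'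
  have hk0 : 0 ≤ k := by rw [hk]; positivity
  have hdiff : k' - k = ((t' : ℤ) - t) * 10 ^ i := by rw [hk, hk']; ring
  have hkk : k < k' := by
    have h1 : (0 : ℤ) < (t' : ℤ) - t := by
      have : (t : ℤ) < t' := by exact_mod_cast htt
      linarith
    have : 0 < ((t' : ℤ) - t) * 10 ^ i := by positivity
    linarith
  have hK : ((t : ℤ) * 10 ^ i + v1) + (t * 10 ^ i + v2) ≤ 2 * k := by
    have : (v2 : ℤ) < v1 := by exact_mod_cast hv
    rw [hk]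
    linarith
  have h1 : 2 * 10 ^ s * (k' - k) ≤ 5 * k := by
    have e : 2 * 10 ^ s * (2 * ((t' : ℤ) - t) * 10 ^ i) = 2 * (2 * 10 ^ s * (k' - k)) := by
      rw [hdiff]; ring
    rw [e] at hs
    linarith
  have hD : (1 : ℤ) ≤ d := by exact_mod_cast hd
  have h2 : 2 * 10 ^ s * (k' - k) * (k' + k) ≤ 5 * k * (k' + k) :=
    mul_le_mul_of_nonneg_right h1 (by linarith)
  have h3 : k * k' < 10 ^ n := by
    have : k * k' ≤ k' * k' := mul_le_mul_of_nonneg_right hkk.le (by linarith)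
    have h4 : k' * k' = k' ^ 2 := by ring
    linarith
  have h5 : 5 * k * (k' + k) < 10 * 10 ^ n := by
    have : 5 * k * (k' + k) = 5 * (k * k') + 5 * k ^ 2 := by ring
    linarith
  have h6 : 2 * 10 ^ s * ((x' : ℤ) - x) ≤ 2 * 10 ^ s * (k' - k) * (k' + k) := by
    have e : (k' - k) * (k' + k) = d * ((x' : ℤ) - x) := by linear_combination E21 - E11
    have h7 : (x' : ℤ) - x ≤ d * ((x' : ℤ) - x) := by
      have h8 : (0 : ℤ) ≤ (x' : ℤ) - x := by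
        have : (0 : ℤ) ≤ 8 * 10 ^ P := by positivity
        linarith
      have := mul_le_mul_of_nonneg_right hD h8
      linarith
    rw [mul_assoc (2 * 10 ^ s), e]
    exact mul_le_mul_of_nonneg_left h7 (by positivity)
  have h9 : 2 * 10 ^ s * (8 * 10 ^ P) ≤ 2 * 10 ^ s * (9 * ((x' : ℤ) - x)) :=
    mul_le_mul_of_nonneg_left B1 (by positivity)
  have h10 : 16 * (10 : ℤ) ^ (s + P) < 90 * 10 ^ n := by
    have e : 2 * (10 : ℤ) ^ s * (8 * 10 ^ P) = 16 * 10 ^ (s + P) := by rw [pow_add]; ring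
    rw [e] at h9
    linarith
  apply pow_lt_of
  rw [pow_succ]
  linarith

theorem row_bound {a d n i h t t' P : ℕ} (hd : 1 ≤ d) (hd9 : d ≤ 9) (hh : 1 ≤ h)
    (hn1 : n ≤ 2 * h) (hn2 : 2 * h ≤ n + 1) (ht : 1 ≤ t) (htt : t < t') (E : Finset ℕ)
    (hE : ∀ v ∈ E, v < 10 ^ i ∧ Sq a d n (t * 10 ^ i + v) ∧ Sq a d n (t' * 10 ^ i + v) ∧
      zf a d n (t' * 10 ^ i + v) / 10 ^ (P + 1) = zf a d n (t * 10 ^ i + v) / 10 ^ (P + 1) ∧
      zf a d n (t' * 10 ^ i + v) / 10 ^ P % 10 = 1 ∧ zf a d n (t * 10 ^ i + v) / 10 ^ P % 10 = 0) :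
    (E.card : ℝ) ≤ goldenRatio ^ (i + 2 + (n - P)) := by
  classical
  have hφ1 : (1 : ℝ) ≤ goldenRatio := one_lt_goldenRatio.le
  by_cases hcard : E.card ≤ 1
  · calc (E.card : ℝ) ≤ 1 := by exact_mod_cast hcard
      _ ≤ _ := one_le_pow₀ hφ1
  push Not at hcard
  have hT : (0 : ℤ) < 2 * ((t' : ℤ) - t) * 10 ^ i := by
    have : (t : ℤ) < t' := by exact_mod_cast htt
    have h1 : (0 : ℤ) < (t' : ℤ) - t := by linarith
    positivity
  -- the rectangle lemma for a pair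
  have pair : ∀ v1 ∈ E, ∀ v2 ∈ E, v2 < v1 → ∃ p s, 1 ≤ s ∧ s ≤ p ∧ h ≤ p + 1 ∧ p ≤ h + i ∧
      zf a d n (t * 10 ^ i + v1) / 10 ^ (p + 1) = zf a d n (t * 10 ^ i + v2) / 10 ^ (p + 1) ∧
      zf a d n (t * 10 ^ i + v1) / 10 ^ p % 10 = 1 ∧ zf a d n (t * 10 ^ i + v2) / 10 ^ p % 10 = 0 ∧
      ¬ (zf a d n (t * 10 ^ i + v1) / 10 ^ (p - s) % 10 = 1 ∧
        zf a d n (t * 10 ^ i + v2) / 10 ^ (p - s) % 10 = 0) ∧
      7 * (((t : ℤ) * 10 ^ i + v1) + (t * 10 ^ i + v2)) ≤ 10 ^ (s + 1) * (2 * ((t' : ℤ) - t) * 10 ^ i) ∧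
      2 * 10 ^ s * (2 * ((t' : ℤ) - t) * 10 ^ i) ≤ 5 * (((t : ℤ) * 10 ^ i + v1) + (t * 10 ^ i + v2)) := by
    intro v1 hv1 v2 hv2 hlt
    obtain ⟨a1, a2, a3, _⟩ := hE v1 hv1
    obtain ⟨_, b2, b3, _⟩ := hE v2 hv2
    exact rect hd hd9 hh hn1 hn2 htt hlt a1 a2 b2 a3 b3
  have Kbound : ∀ v1 ∈ E, ∀ v2 ∈ E, ∀ w1 ∈ E, ∀ w2 ∈ E,
      ((t : ℤ) * 10 ^ i + v1) + (t * 10 ^ i + v2) < 2 * (((t : ℤ) * 10 ^ i + w1) + (t * 10 ^ i + w2)) := by
    intro v1 hv1 v2 hv2 w1 hw1 w2 hw2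
    have a1 : (v1 : ℤ) < 10 ^ i := by exact_mod_cast (hE v1 hv1).1
    have a2 : (v2 : ℤ) < 10 ^ i := by exact_mod_cast (hE v2 hv2).1
    have a3 : (0 : ℤ) ≤ w1 := by positivity
    have a4 : (0 : ℤ) ≤ w2 := by positivity
    have a5 : (10 : ℤ) ^ i ≤ t * 10 ^ i := by
      have : (1 : ℤ) ≤ t := by exact_mod_cast ht
      have := mul_le_mul_of_nonneg_right this (show (0 : ℤ) ≤ 10 ^ i by positivity)
      linarith
    linarith
  have Kpos : ∀ v1 v2 : ℕ, (0 : ℤ) < ((t : ℤ) * 10 ^ i + v1) + (t * 10 ^ i + v2) := by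
    intro v1 v2
    have : (1 : ℤ) ≤ t := by exact_mod_cast ht
    have : (0 : ℤ) < t * 10 ^ i := by positivity
    positivity
  obtain ⟨v, hv, w, hw, hvw⟩ := Finset.one_lt_card.1 hcard
  obtain ⟨v0, hv0, w0, hw0, hlt0⟩ : ∃ v0 ∈ E, ∃ w0 ∈ E, w0 < v0 := by
    rcases lt_or_gt_of_ne hvw with h1 | h1
    · exact ⟨w, hw, v, hv, h1⟩
    · exact ⟨v, hv, w, hw, h1⟩
  obtain ⟨p0, s, hs1, hsp, _, _, _, _, _, _, hs7, hs2⟩ := pair v0 hv0 w0 hw0 hlt0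
  have hsP : s + P ≤ n := by
    obtain ⟨_, a2, a3, a4, a5, a6⟩ := hE v0 hv0
    exact shift_bound hd htt hlt0 a2 a3 a4 a5 a6 hs2
  have pair' : ∀ v1 ∈ E, ∀ v2 ∈ E, v2 < v1 → ∃ p, s ≤ p ∧ h ≤ p + 1 ∧ p ≤ h + i ∧
      zf a d n (t * 10 ^ i + v1) / 10 ^ (p + 1) = zf a d n (t * 10 ^ i + v2) / 10 ^ (p + 1) ∧
      zf a d n (t * 10 ^ i + v1) / 10 ^ p % 10 = 1 ∧ zf a d n (t * 10 ^ i + v2) / 10 ^ p % 10 = 0 ∧
      ¬ (zf a d n (t * 10 ^ i + v1) / 10 ^ (p - s) % 10 = 1 ∧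
        zf a d n (t * 10 ^ i + v2) / 10 ^ (p - s) % 10 = 0) := by
    intro v1 hv1 v2 hv2 hlt
    obtain ⟨p, s', c1, c2, c3, c4, c5, c6, c7, c8, c9, c10⟩ := pair v1 hv1 v2 hv2 hlt
    have e1 : s' ≤ s := s_unique (Kpos _ _) hT hs7 c10 (Kbound v1 hv1 v2 hv2 v0 hv0 w0 hw0)
    have e2 : s ≤ s' := s_unique (Kpos _ _) hT c9 hs2 (Kbound v0 hv0 w0 hw0 v1 hv1 v2 hv2)
    have e3 : s' = s := le_antisymm e1 e2
    subst e3
    exact ⟨p, c2, c3, c4, c5, c6, c7, c8⟩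
  set β : ℕ → ℕ → ℕ := fun v j => if v ∈ E then zf a d n (t * 10 ^ i + v) / 10 ^ (h - 1 + j) % 10 else 0
    with hβ
  have hβE : ∀ v ∈ E, ∀ j, β v j = zf a d n (t * 10 ^ i + v) / 10 ^ (h - 1 + j) % 10 := by
    intro v hv j
    simp only [hβ, if_pos hv]
  have hβ1 : ∀ v j, β v j ≤ 1 := by
    intro v j
    by_cases hv : v ∈ E
    · rw [hβE v hv]
      exact (zf_spec hd (hE v hv).2.1).2.1 _
    · simp only [hβ, if_neg hv]
      omega
  have main := tree_lemma s hs1 β hβ1 (i + 2) E ∅ (by simp) ?_ (by simp) ?_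
  · refine main.trans ?_
    apply pow_le_pow_right₀ hφ1
    simp only [Finset.card_empty]
    omega
  · -- determined by the window
    have aux : ∀ x ∈ E, ∀ y ∈ E, (∀ j < i + 2, β x j = β y j) → ¬ y < x := by
      intro x hx y hy hj hlt
      obtain ⟨p, _, c3, c4, _, c6, c7, _⟩ := pair' x hx y hy hlt
      have := hj (p + 1 - h) (by omega)
      rw [hβE x hx, hβE y hy, show h - 1 + (p + 1 - h) = p by omega, c6, c7] at this
      omega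
    intro x hx y hy hj
    have h1 := aux x hx y hy hj
    have h2 := aux y hy x hx (fun j hj' => (hj j hj').symm)
    omega
  · intro x hx y hy p' hp' hsp' hj h1 h0
    rw [hβE x hx] at h1
    rw [hβE y hy] at h0
    rw [hβE x hx, hβE y hy]
    -- identify the top differing position
    have ident : ∀ x ∈ E, ∀ y ∈ E, (∀ j, p' < j → j < i + 2 → β x j = β y j) →
        zf a d n (t * 10 ^ i + x) / 10 ^ (h - 1 + p') % 10 ≠
          zf a d n (t * 10 ^ i + y) / 10 ^ (h - 1 + p') % 10 →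
        ∀ p, h ≤ p + 1 → p ≤ h + i →
        zf a d n (t * 10 ^ i + x) / 10 ^ (p + 1) = zf a d n (t * 10 ^ i + y) / 10 ^ (p + 1) →
        zf a d n (t * 10 ^ i + x) / 10 ^ p % 10 = 1 → zf a d n (t * 10 ^ i + y) / 10 ^ p % 10 = 0 →
        p = h - 1 + p' := by
      intro x hx y hy hj hne p c3 c4 c5 c6 c7
      rcases lt_trichotomy p (h - 1 + p') with hlt | heq | hgt
      · exact absurd (by rw [prefix_mono c5 (show p + 1 ≤ h - 1 + p' by omega)]) hne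
      · exact heq
      · have := hj (p + 1 - h) (by omega) (by omega)
        rw [hβE x hx, hβE y hy, show h - 1 + (p + 1 - h) = p by omega, c6, c7] at this
        omega
    rcases lt_trichotomy x y with hlt | heq | hgt
    · obtain ⟨p, c2, c3, c4, c5, c6, c7, c8⟩ := pair' y hy x hx hlt
      have hp := ident y hy x hx (fun j h1 h2 => (hj j h1 h2).symm) (by omega) p c3 c4 c5 c6 c7
      rw [hp] at c6 c7
      omega
    · subst heq
      omega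
    · obtain ⟨p, c2, c3, c4, c5, c6, c7, c8⟩ := pair' x hx y hy hgt
      have hp := ident x hx y hy hj (by omega) p c3 c4 c5 c6 c7
      rw [show h - 1 + (p' - s) = p - s by omega]
      exact c8

end Pool.Agent.TDS
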