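import Mathlib
import Pool.Agent.TDS.Basic

/-! The number of residues modulo `10 ^ i` whose square ends with two given digits. -/

namespace Pool.Agent.TDS

theorem prime_pow_dvd {p : ℤ} (hp : Prime p) {i : ℕ} {u w : ℤ} (h : p ^ i ∣ u * w) :
    ∀ j : ℕ, ¬ p ^ (j + 1) ∣ u → p ^ (i - j) ∣ w := by
  intro j
  induction j with
  | zero =>
    intro hu
    rw [zero_add, pow_one] at hu
    exact hp.pow_dvd_of_dvd_mul_left i hu h
  | succ j ih =>
    intro hu
    by_cases hj : p ^ (j + 1) ∣ u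
    · obtain ⟨u', rfl⟩ := hj
      by_cases hij : i ≤ j + 1
      · rw [Nat.sub_eq_zero_of_le hij]; simp
      · obtain ⟨r, rfl⟩ : ∃ r, i = j + 1 + r := ⟨i - (j + 1), by omega⟩
        rw [Nat.add_sub_cancel_left]
        have hu' : ¬ p ∣ u' := by
          intro hd
          apply hu
          rw [pow_succ]
          exact mul_dvd_mul_left _ hd
        rw [pow_add, mul_assoc] at h
        have h2 : p ^ r ∣ u' * w := (mul_dvd_mul_iff_left (pow_ne_zero _ hp.ne_zero)).1 h
        exact hp.pow_dvd_of_dvd_mul_left r hu' h2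
    · have := ih hj
      exact (pow_dvd_pow p (by omega)).trans this

theorem bits_of_dvd {z y : ℕ} (hz : B01 z) (hy : B01 y) :
    ∀ m : ℕ, (2 : ℤ) ^ m ∣ (z : ℤ) - y → z % 10 ^ m = y % 10 ^ m := by
  intro m
  induction m with
  | zero => intro _; simp [Nat.mod_one]
  | succ m ih =>
    intro h
    have h1 := ih ((pow_dvd_pow 2 (by omega)).trans h)
    have e1 : (z : ℤ) = 10 ^ m * ((z / 10 ^ m : ℕ) : ℤ) + ((z % 10 ^ m : ℕ) : ℤ) := by
      exact_mod_cast (Nat.div_add_mod z (10 ^ m)).symm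
    have e2 : (y : ℤ) = 10 ^ m * ((y / 10 ^ m : ℕ) : ℤ) + ((y % 10 ^ m : ℕ) : ℤ) := by
      exact_mod_cast (Nat.div_add_mod y (10 ^ m)).symm
    have e3 : (z : ℤ) - y = 2 ^ m * (5 ^ m * (((z / 10 ^ m : ℕ) : ℤ) - ((y / 10 ^ m : ℕ) : ℤ))) := by
      rw [h1] at e1
      have : (10 : ℤ) ^ m = 2 ^ m * 5 ^ m := by rw [← mul_pow]; norm_num
      rw [this] at e1 e2
      linear_combination e1 - e2
    rw [e3, pow_succ] at h
    have h2 : (2 : ℤ) ∣ 5 ^ m * (((z / 10 ^ m : ℕ) : ℤ) - ((y / 10 ^ m : ℕ) : ℤ)) :=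
      (mul_dvd_mul_iff_left (by positivity)).1 h
    have h3 : (2 : ℤ) ∣ (((z / 10 ^ m : ℕ) : ℤ) - ((y / 10 ^ m : ℕ) : ℤ)) := by
      rcases Int.prime_two.dvd_or_dvd h2 with h4 | h4
      · have := Int.prime_two.dvd_of_dvd_pow h4
        norm_num at this
      · exact h4
    have k1 := hz m
    have k2 := hy m
    rw [Nat.mod_pow_succ, Nat.mod_pow_succ, h1]
    have : z / 10 ^ m % 10 = y / 10 ^ m % 10 := by omega
    rw [this]

theorem V_count (c d i : ℕ) (hd : 1 ≤ d) (hd9 : d ≤ 9) (hi : 2 ≤ i) (V : Finset ℕ)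
    (hV : ∀ v ∈ V, v < 10 ^ i ∧ ¬ 25 ∣ v ∧ ∃ ζ, B01 ζ ∧ ζ < 10 ^ i ∧
      (10 : ℤ) ^ i ∣ (v : ℤ) ^ 2 - (c + d * ζ)) : V.card ≤ 640 * 2 ^ i := by
  classical
  have hV1 : ∀ v ∈ V, v < 10 ^ i := fun v hv => (hV v hv).1
  have hV2 : ∀ v ∈ V, ¬ 25 ∣ v := fun v hv => (hV v hv).2.1
  have hV3 : ∀ v ∈ V, ∃ ζ, B01 ζ ∧ ζ < 10 ^ i ∧
      (10 : ℤ) ^ i ∣ (v : ℤ) ^ 2 - (c + d * ζ) := fun v hv => (hV v hv).2.2
  choose! ζ hζ1 hζ2 hζ3 using hV3
  set A := i / 2 with hA
  set Vα : ℕ → Finset ℕ := fun α => V.filter (fun v => 2 ^ α ∣ v ∧ (α = A ∨ ¬ 2 ^ (α + 1) ∣ v)) with hVα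
  have hcover : V ⊆ (Finset.range (A + 1)).biUnion Vα := by
    intro v hv
    rw [Finset.mem_biUnion]
    have hex : ∃ α, α ≤ A ∧ 2 ^ α ∣ v ∧ (α = A ∨ ¬ 2 ^ (α + 1) ∣ v) := by
      by_cases hA2 : 2 ^ A ∣ v
      · exact ⟨A, le_rfl, hA2, Or.inl rfl⟩
      · have hex2 : ∃ β, ¬ 2 ^ β ∣ v := ⟨A, hA2⟩
        have hspec := Nat.find_spec hex2
        have hle : Nat.find hex2 ≤ A := Nat.find_min' hex2 hA2
        have h0 : Nat.find hex2 ≠ 0 := by
          intro h0
          rw [h0] at hspec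
          simp at hspec
        obtain ⟨r, hr⟩ : ∃ r, Nat.find hex2 = r + 1 := ⟨Nat.find hex2 - 1, by omega⟩
        have hmin := Nat.find_min hex2 (show r < Nat.find hex2 by omega)
        rw [not_not] at hmin
        rw [hr] at hspec
        exact ⟨r, by omega, hmin, Or.inr hspec⟩
    obtain ⟨α, h1, h2, h3⟩ := hex
    refine ⟨α, Finset.mem_range.2 (by omega), ?_⟩
    simp only [hVα, Finset.mem_filter]
    exact ⟨hv, h2, h3⟩
  have hcard : ∀ α, α ≤ A → (Vα α).card ≤ 320 * 2 ^ (i - α) := by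
    intro α hα
    have hmem : ∀ v ∈ Vα α, v ∈ V ∧ 2 ^ α ∣ v ∧ (α = A ∨ ¬ 2 ^ (α + 1) ∣ v) := by
      intro v hv
      simp only [hVα, Finset.mem_filter] at hv
      exact hv
    -- the low digits of ζ are constant
    have hlow : ∀ v ∈ Vα α, ∀ w ∈ Vα α, ζ v % 10 ^ (2 * α - 3) = ζ w % 10 ^ (2 * α - 3) := by
      intro v hv w hw
      obtain ⟨hvV, hvα, _⟩ := hmem v hv
      obtain ⟨hwV, hwα, _⟩ := hmem w hw
      apply bits_of_dvd (hζ1 v hvV) (hζ1 w hwV)
      have h10 : (2 : ℤ) ^ (2 * α) ∣ 10 ^ i := by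
        have : (2 : ℤ) ^ (2 * α) ∣ 10 ^ (2 * α) := pow_dvd_pow_of_dvd (by norm_num) _
        exact this.trans (pow_dvd_pow 10 (by omega))
      have hsq : ∀ u : ℕ, 2 ^ α ∣ u → (2 : ℤ) ^ (2 * α) ∣ (u : ℤ) ^ 2 := by
        intro u hu
        rw [mul_comm, pow_mul]
        exact pow_dvd_pow_of_dvd (by exact_mod_cast hu) 2
      have h1 := (h10.trans (hζ3 v hvV))
      have h2 := (h10.trans (hζ3 w hwV))
      have h3 := dvd_sub (hsq v hvα) h1
      have h4 := dvd_sub (hsq w hwα) h2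
      have h5 := dvd_sub h3 h4
      have h6 : (2 : ℤ) ^ (2 * α) ∣ (d : ℤ) * ((ζ v : ℤ) - ζ w) := by
        have e : (v : ℤ) ^ 2 - ((v : ℤ) ^ 2 - (c + d * ζ v)) -
            ((w : ℤ) ^ 2 - ((w : ℤ) ^ 2 - (c + d * ζ w))) = (d : ℤ) * ((ζ v : ℤ) - ζ w) := by ring
        rw [e] at h5
        exact h5
      apply prime_pow_dvd Int.prime_two h6 3
      intro h7
      have : (2 : ℤ) ^ (3 + 1) ≤ d := Int.le_of_dvd (by exact_mod_cast hd) h7
      have : (d : ℤ) ≤ 9 := by exact_mod_cast hd9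
      norm_num at *
      omega
    set f : ℕ → ℕ := fun v => ζ v / 10 ^ (2 * α - 3) with hf
    have himg : ((Vα α).image f).card ≤ 2 ^ (i - (2 * α - 3)) := by
      refine le_trans (Finset.card_le_card ?_) (W_card (i - (2 * α - 3)))
      intro z hz
      rw [Finset.mem_image] at hz
      obtain ⟨v, hv, rfl⟩ := hz
      obtain ⟨hvV, _, _⟩ := hmem v hv
      rw [mem_W]
      refine ⟨?_, (hζ1 v hvV).div _⟩
      rw [hf]
      apply Nat.div_lt_of_lt_mul
      rw [← pow_add]
      have h1 : 2 * α - 3 + (i - (2 * α - 3)) = i := by omega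
      rw [h1]
      exact hζ2 v hvV
    have hfib : ∀ b ∈ (Vα α).image f, ((Vα α).filter (fun x => f x = b)).card ≤ 40 * 2 ^ α := by
      intro b hb
      rw [Finset.mem_image] at hb
      obtain ⟨v0, hv0, hfv0⟩ := hb
      obtain ⟨hv0V, hv0α, hv0or⟩ := hmem v0 hv0
      set P2 : ℕ := 2 ^ (i - (α + 1)) with hP2
      set P5 : ℕ := 5 ^ (i - 1) with hP5
      have hprod : P2 * P5 * (10 * 2 ^ α) = 10 ^ i := by
        rw [hP2, hP5]
        obtain ⟨r, rfl⟩ : ∃ r, i = α + 1 + r := ⟨i - (α + 1), by omega⟩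
        rw [Nat.add_sub_cancel_left, show α + 1 + r - 1 = α + r by omega]
        have e10 : (10 : ℕ) ^ (α + 1 + r) = 2 ^ (α + 1 + r) * 5 ^ (α + 1 + r) := by
          rw [← mul_pow]
          norm_num
        rw [e10]
        ring
      have hPpos : 0 < P2 * P5 := by positivity
      have hcop : Nat.Coprime P2 P5 := by
        rw [hP2, hP5]
        exact Nat.Coprime.pow _ _ (by norm_num)
      -- structure of a fibre
      have hstruct : ∀ v ∈ Vα α, f v = f v0 →
          (((P2 : ℤ) ∣ (v : ℤ) - v0 ∨ (P2 : ℤ) ∣ (v : ℤ) + v0) ∧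
            ((P5 : ℤ) ∣ (v : ℤ) - v0 ∨ (P5 : ℤ) ∣ (v : ℤ) + v0)) := by
        intro v hv hfv
        obtain ⟨hvV, hvα, hvor⟩ := hmem v hv
        have hzz : ζ v = ζ v0 := by
          have h1 := hlow v hv v0 hv0
          have h2 : ζ v / 10 ^ (2 * α - 3) = ζ v0 / 10 ^ (2 * α - 3) := hfv
          rw [← Nat.div_add_mod (ζ v) (10 ^ (2 * α - 3)), ← Nat.div_add_mod (ζ v0) (10 ^ (2 * α - 3)),
            h1, h2]
        have h10 : (10 : ℤ) ^ i ∣ ((v : ℤ) - v0) * ((v : ℤ) + v0) := by
          have h1 := dvd_sub (hζ3 v hvV) (hζ3 v0 hv0V)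
          rw [hzz] at h1
          have e : (v : ℤ) ^ 2 - (c + d * ζ v0) - ((v0 : ℤ) ^ 2 - (c + d * ζ v0)) =
            ((v : ℤ) - v0) * ((v : ℤ) + v0) := by ring
          rwa [e] at h1
        have h2i : (2 : ℤ) ^ i ∣ ((v : ℤ) - v0) * ((v : ℤ) + v0) :=
          (pow_dvd_pow_of_dvd (by norm_num) i).trans h10
        have h5i : (5 : ℤ) ^ i ∣ ((v : ℤ) - v0) * ((v : ℤ) + v0) :=
          (pow_dvd_pow_of_dvd (by norm_num) i).trans h10
        refine ⟨?_, ?_⟩
        · rw [hP2]
          push_cast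
          rcases hvor with hαA | hnot
          · left
            have h1 : (2 : ℤ) ^ α ∣ (v : ℤ) - v0 :=
              dvd_sub (by exact_mod_cast hvα) (by exact_mod_cast hv0α)
            exact (pow_dvd_pow 2 (by omega)).trans h1
          · by_cases h1 : (2 : ℤ) ^ (α + 1 + 1) ∣ (v : ℤ) - v0
            · have h2 : ¬ (2 : ℤ) ^ (α + 1 + 1) ∣ (v : ℤ) + v0 := by
                intro h2
                apply hnot
                have h3 := dvd_add h1 h2
                have e : (v : ℤ) - v0 + (v + v0) = v * 2 := by ring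
                rw [e, pow_succ] at h3
                have h4 : (2 : ℤ) ^ (α + 1) ∣ (v : ℤ) :=
                  (mul_dvd_mul_iff_right (by norm_num)).1 h3
                exact_mod_cast h4
              left
              rw [mul_comm] at h2i
              exact prime_pow_dvd Int.prime_two h2i (α + 1) h2
            · right
              exact prime_pow_dvd Int.prime_two h2i (α + 1) h1
        · rw [hP5]
          push_cast
          have p5 : Prime (5 : ℤ) := by
            have : Nat.Prime 5 := by norm_num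
            exact_mod_cast Nat.prime_iff_prime_int.1 this
          by_cases h1 : (5 : ℤ) ^ (1 + 1) ∣ (v : ℤ) - v0
          · have h2 : ¬ (5 : ℤ) ^ (1 + 1) ∣ (v : ℤ) + v0 := by
              intro h2
              have h3 := dvd_add h1 h2
              have e : (v : ℤ) - v0 + (v + v0) = v * 2 := by ring
              rw [e] at h3
              have h5 := hV2 v hvV
              norm_num at h3
              omega
            left
            rw [mul_comm] at h5i
            exact prime_pow_dvd p5 h5i 1 h2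
          · right
            exact prime_pow_dvd p5 h5i 1 h1
      have hle : ((Vα α).filter (fun x => f x = b)).card ≤
          ((Finset.univ : Finset (Bool × Bool)) ×ˢ Finset.range (10 * 2 ^ α)).card := by
        apply Finset.card_le_card_of_injOn (fun v : ℕ =>
          ((decide ((P2 : ℤ) ∣ (v : ℤ) - v0), decide ((P5 : ℤ) ∣ (v : ℤ) - v0)), v / (P2 * P5)))
        · intro v hv
          have hv' := Finset.mem_filter.1 (Finset.mem_coe.1 hv)
          obtain ⟨hvV, _, _⟩ := hmem v hv'.1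
          simp only [Finset.coe_product, Set.mem_prod, Finset.coe_univ, Set.mem_univ, true_and,
            Finset.mem_coe, Finset.mem_range]
          apply Nat.div_lt_of_lt_mul
          rw [hprod]
          exact hV1 v hvV
        · intro v hv w hw hvw
          have hv' := Finset.mem_filter.1 (Finset.mem_coe.1 hv)
          have hw' := Finset.mem_filter.1 (Finset.mem_coe.1 hw)
          simp only [Prod.mk.injEq, decide_eq_decide] at hvw
          obtain ⟨⟨hb2, hb5⟩, hq⟩ := hvw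
          obtain ⟨sv2, sv5⟩ := hstruct v hv'.1 (by rw [hv'.2, hfv0])
          obtain ⟨sw2, sw5⟩ := hstruct w hw'.1 (by rw [hw'.2, hfv0])
          have gen : ∀ P : ℤ, ((P ∣ (v : ℤ) - v0) ↔ (P ∣ (w : ℤ) - v0)) →
              (P ∣ (v : ℤ) - v0 ∨ P ∣ (v : ℤ) + v0) → (P ∣ (w : ℤ) - v0 ∨ P ∣ (w : ℤ) + v0) →
              P ∣ (v : ℤ) - w := by
            intro P hiff h1 h2
            by_cases h3 : P ∣ (v : ℤ) - v0
            · have h4 := hiff.1 h3
              have := dvd_sub h3 h4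
              simpa using this
            · have h4 : ¬ P ∣ (w : ℤ) - v0 := fun h => h3 (hiff.2 h)
              have h5 := h1.resolve_left h3
              have h6 := h2.resolve_left h4
              have := dvd_sub h5 h6
              simpa using this
          have g2 := gen P2 hb2 sv2 sw2
          have g5 := gen P5 hb5 sv5 sw5
          have hmul : ((P2 * P5 : ℕ) : ℤ) ∣ (v : ℤ) - w := by
            push_cast
            exact IsCoprime.mul_dvd (Nat.isCoprime_iff_coprime.2 hcop) g2 g5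
          have hmod : w % (P2 * P5) = v % (P2 * P5) := by
            have := (Nat.modEq_iff_dvd (n := P2 * P5) (a := w) (b := v)).2 hmul
            exact this
          rw [← Nat.div_add_mod v (P2 * P5), ← Nat.div_add_mod w (P2 * P5), hq, hmod]
      refine hle.trans ?_
      rw [Finset.card_product, Finset.card_range, Finset.card_univ]
      simp only [Fintype.card_prod, Fintype.card_bool]
      omega
    have hmain := Finset.card_le_mul_card_image (f := f) (Vα α) (40 * 2 ^ α) hfib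
    refine hmain.trans ?_
    have h1 : 40 * 2 ^ α * ((Vα α).image f).card ≤ 40 * 2 ^ α * 2 ^ (i - (2 * α - 3)) :=
      Nat.mul_le_mul_left _ himg
    refine h1.trans ?_
    have h2 : (2 : ℕ) ^ (i - (2 * α - 3)) ≤ 2 ^ (i - 2 * α + 3) :=
      Nat.pow_le_pow_right (by norm_num) (by omega)
    have h3 : (2 : ℕ) ^ α * 2 ^ (i - 2 * α + 3) = 8 * 2 ^ (i - α) := by
      rw [← pow_add, show α + (i - 2 * α + 3) = i - α + 3 by omega, pow_add]
      ring
    calc 40 * 2 ^ α * 2 ^ (i - (2 * α - 3)) ≤ 40 * 2 ^ α * 2 ^ (i - 2 * α + 3) :=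
          Nat.mul_le_mul_left _ h2
      _ = 40 * (2 ^ α * 2 ^ (i - 2 * α + 3)) := by ring
      _ = 320 * 2 ^ (i - α) := by rw [h3]; ring
      _ ≤ _ := le_rfl
  have hsum : V.card ≤ ∑ α ∈ Finset.range (A + 1), 320 * 2 ^ (i - α) := by
    refine (Finset.card_le_card hcover).trans (Finset.card_biUnion_le.trans ?_)
    apply Finset.sum_le_sum
    intro α hα
    rw [Finset.mem_range] at hα
    exact hcard α (by omega)
  refine hsum.trans ?_
  have hgeo : ∀ B, B ≤ i → ∑ α ∈ Finset.range (B + 1), 320 * 2 ^ (i - α) + 320 * 2 ^ (i - B) ≤ 640 * 2 ^ i := by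
    intro B
    induction B with
    | zero => intro _; simp; omega
    | succ B ih =>
      intro hB
      rw [Finset.sum_range_succ]
      have := ih (by omega)
      have e : (2 : ℕ) ^ (i - B) = 2 * 2 ^ (i - (B + 1)) := by
        rw [← pow_succ']
        congr 1
        omega
      omega
  have := hgeo A (by omega)
  omega

end Pool.Agent.TDS
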