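import Mathlib
import Pool.Agent.TDS.Row
import Pool.Agent.TDS.VBound

/-! Counting pairs with equal low digits. -/

namespace Pool.Agent.TDS

open Real

theorem top_close {a d n h i k k' Q : ℕ} (hd : 1 ≤ d) (hd9 : d ≤ 9) (hh : 1 ≤ h)
    (hn1 : n ≤ 2 * h) (hn2 : 2 * h ≤ n + 1) (hk : Sq a d n k) (hk' : Sq a d n k') (hle : k ≤ k')
    (hQ : Q ≤ h - 1 + i) (hz : zf a d n k / 10 ^ Q = zf a d n k' / 10 ^ Q) :
    2 * k' < 10 ^ i + 2 * k := by
  obtain ⟨_, c1, e1⟩ := zf_spec hd hk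
  obtain ⟨_, c2, e2⟩ := zf_spec hd hk'
  have s1 := (Sq_size hh hn1 hn2 hk).1
  have s2 := (Sq_size hh hn1 hn2 hk').1
  set z := zf a d n k with hzd
  set z' := zf a d n k' with hzd'
  obtain ⟨r, rfl⟩ : ∃ r, k' = k + r := ⟨k' - k, by omega⟩
  have m2 := mod_le c2 Q
  have hR := nine_R Q
  have hz1 := Nat.div_add_mod z (10 ^ Q)
  have hz2 := Nat.div_add_mod z' (10 ^ Q)
  rw [← hz] at hz2
  have h1 : z' ≤ z + R Q := by omega
  have h2 : d * z' ≤ d * z + 9 * R Q := by
    calc d * z' ≤ d * (z + R Q) := Nat.mul_le_mul_left _ h1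
      _ = d * z + d * R Q := by ring
      _ ≤ d * z + 9 * R Q := by
        have := Nat.mul_le_mul_right (R Q) hd9
        omega
  have h3 : r * (2 * 10 ^ (h - 1)) ≤ (k + r) ^ 2 - k ^ 2 := by
    have h31 : (k + r) ^ 2 = k ^ 2 + r * (2 * k + r) := by ring
    rw [h31, Nat.add_sub_cancel_left]
    exact Nat.mul_le_mul_left _ (by omega)
  have h4 : (k + r) ^ 2 - k ^ 2 < 10 ^ Q := by omega
  have h5 : 10 ^ Q ≤ 10 ^ (h - 1) * 10 ^ i := by
    rw [← pow_add]
    exact Nat.pow_le_pow_right (by norm_num) hQ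
  have h6 : 10 ^ (h - 1) * (2 * r) < 10 ^ (h - 1) * 10 ^ i := by
    calc 10 ^ (h - 1) * (2 * r) = r * (2 * 10 ^ (h - 1)) := by ring
      _ ≤ (k + r) ^ 2 - k ^ 2 := h3
      _ < 10 ^ Q := h4
      _ ≤ _ := h5
  have h7 := lt_of_mul_lt_mul_left h6 (Nat.zero_le _)
  omega

/-- Pairs of 0/1 numbers with `m` digits agreeing above position `r`. -/
theorem UU_card (m r : ℕ) (hr : r ≤ m) (U : Finset (ℕ × ℕ))
    (hU : ∀ p ∈ U, p.1 ∈ W m ∧ p.2 ∈ W m ∧ p.1 / 10 ^ r = p.2 / 10 ^ r) :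
    U.card ≤ 2 ^ (m + r) := by
  have h1 : U.card ≤ (W (m - r) ×ˢ (W r ×ˢ W r)).card := by
    apply Finset.card_le_card_of_injOn (fun p => (p.1 / 10 ^ r, (p.1 % 10 ^ r, p.2 % 10 ^ r)))
    · intro p hp
      obtain ⟨a1, a2, a3⟩ := hU p (Finset.mem_coe.1 hp)
      rw [mem_W] at a1 a2
      simp only [Finset.coe_product, Set.mem_prod, Finset.mem_coe, mem_W]
      refine ⟨⟨?_, a1.2.div r⟩, ⟨Nat.mod_lt _ (by positivity), a1.2.mod r⟩,
        Nat.mod_lt _ (by positivity), a2.2.mod r⟩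
      apply Nat.div_lt_of_lt_mul
      rw [← pow_add, show r + (m - r) = m by omega]
      exact a1.1
    · intro p hp q hq hpq
      obtain ⟨_, _, a3⟩ := hU p (Finset.mem_coe.1 hp)
      obtain ⟨_, _, b3⟩ := hU q (Finset.mem_coe.1 hq)
      simp only [Prod.mk.injEq] at hpq
      obtain ⟨e1, e2, e3⟩ := hpq
      ext
      · rw [← Nat.div_add_mod p.1 (10 ^ r), ← Nat.div_add_mod q.1 (10 ^ r), e1, e2]
      · rw [← Nat.div_add_mod p.2 (10 ^ r), ← Nat.div_add_mod q.2 (10 ^ r), e3, ← a3, ← b3, e1]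
  rw [Finset.card_product, Finset.card_product] at h1
  calc U.card ≤ _ := h1
    _ ≤ 2 ^ (m - r) * (2 ^ r * 2 ^ r) :=
        Nat.mul_le_mul (W_card _) (Nat.mul_le_mul (W_card _) (W_card _))
    _ = 2 ^ (m + r) := by
        rw [← pow_add, ← pow_add]
        congr 1
        omega

theorem off_level {a d n i h : ℕ} (hd : 1 ≤ d) (hd9 : d ≤ 9) (hh : 1 ≤ h)
    (hn1 : n ≤ 2 * h) (hn2 : 2 * h ≤ n + 1) (hih : i + 1 ≤ h) (hmn : h + 1 - i ≤ n)
    (r : ℕ) (hr : r < h + 1 - i) (O : Finset (ℕ × ℕ))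
    (hO : ∀ p ∈ O, Sq a d n p.1 ∧ Sq a d n p.2 ∧ p.1 < p.2 ∧ p.1 % 10 ^ i = p.2 % 10 ^ i ∧
      zf a d n p.2 / 10 ^ (n - (h + 1 - i) + r + 1) = zf a d n p.1 / 10 ^ (n - (h + 1 - i) + r + 1) ∧
      zf a d n p.2 / 10 ^ (n - (h + 1 - i) + r) % 10 = 1 ∧
      zf a d n p.1 / 10 ^ (n - (h + 1 - i) + r) % 10 = 0) :
    (O.card : ℝ) ≤ 2 ^ (h + 1 - i + r + 3) * goldenRatio ^ (i + 2 + (h + 1 - i - r)) := by
  classical
  set m1 := h + 1 - i with hm1
  set P := n - m1 + r with hP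
  have hM : 0 < 10 ^ i := by positivity
  set g : ℕ × ℕ → ℕ × ℕ := fun p => (p.1 / 10 ^ i, p.2 / 10 ^ i) with hg
  have hgt : ∀ p ∈ O, 1 ≤ p.1 / 10 ^ i ∧ p.1 / 10 ^ i < p.2 / 10 ^ i := by
    intro p hp
    obtain ⟨a1, a2, a3, a4, _⟩ := hO p hp
    constructor
    · have h1 := (Sq_size hh hn1 hn2 a1).1
      have h2 : 10 ^ i ≤ 10 ^ (h - 1) := Nat.pow_le_pow_right (by norm_num) (by omega)
      exact (Nat.one_le_div_iff hM).2 (h2.trans h1)
    · by_contra hcon
      push Not at hcon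
      have e1 := Nat.div_add_mod p.1 (10 ^ i)
      have e2 := Nat.div_add_mod p.2 (10 ^ i)
      have e3 := Nat.mul_le_mul_left (10 ^ i) hcon
      omega
  -- fibres
  have hfib : ∀ q ∈ O.image g, ((O.filter (fun p => g p = q)).card : ℝ) ≤
      goldenRatio ^ (i + 2 + (m1 - r)) := by
    intro q hq
    rw [Finset.mem_image] at hq
    obtain ⟨p0, hp0, hq⟩ := hq
    set Fb := O.filter (fun p => g p = q) with hFb
    set E := Fb.image (fun p => p.1 % 10 ^ i) with hE
    have hmemF : ∀ p ∈ Fb, p ∈ O ∧ p.1 = q.1 * 10 ^ i + p.1 % 10 ^ i ∧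
        p.2 = q.2 * 10 ^ i + p.1 % 10 ^ i := by
      intro p hp
      rw [hFb, Finset.mem_filter] at hp
      obtain ⟨hpO, hpq⟩ := hp
      have e1 := Nat.div_add_mod p.1 (10 ^ i)
      have e2 := Nat.div_add_mod p.2 (10 ^ i)
      have e3 := (hO p hpO).2.2.2.1
      rw [← hpq]
      simp only [hg]
      refine ⟨hpO, ?_, ?_⟩
      · rw [mul_comm]; exact e1.symm
      · rw [mul_comm, e3]; exact e2.symm
    have hcardE : E.card = Fb.card := by
      apply Finset.card_image_of_injOn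
      intro p hp p' hp' hpp
      obtain ⟨_, e1, e2⟩ := hmemF p (Finset.mem_coe.1 hp)
      obtain ⟨_, e3, e4⟩ := hmemF p' (Finset.mem_coe.1 hp')
      simp only at hpp
      ext
      · rw [e1, e3, hpp]
      · rw [e2, e4, hpp]
    rw [← hcardE]
    have hq1 : 1 ≤ q.1 ∧ q.1 < q.2 := by
      have := hgt p0 hp0
      rw [← hq]
      exact this
    have hrow := row_bound (a := a) (d := d) (n := n) (i := i) (h := h) (t := q.1) (t' := q.2) (P := P)
      hd hd9 hh hn1 hn2 hq1.1 hq1.2 E ?_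
    · refine hrow.trans ?_
      apply pow_le_pow_right₀ one_lt_goldenRatio.le
      omega
    · intro v hv
      rw [hE, Finset.mem_image] at hv
      obtain ⟨p, hp, rfl⟩ := hv
      obtain ⟨hpO, e1, e2⟩ := hmemF p hp
      obtain ⟨a1, a2, a3, a4, a5, a6, a7⟩ := hO p hpO
      rw [← e1, ← e2]
      exact ⟨Nat.mod_lt _ hM, a1, a2, a5, a6, a7⟩
  -- the image is small
  have himg : (O.image g).card ≤ 2 ^ (m1 + r + 3) := by
    have hrep : ∀ q ∈ O.image g, ∃ p ∈ O, g p = q := by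
      intro q hq
      rw [Finset.mem_image] at hq
      exact hq
    choose! rep hrep1 hrep2 using hrep
    set U : Finset (ℕ × ℕ) := (O.image g).image
      (fun q => (zf a d n (rep q).1 / 10 ^ (n - m1), zf a d n (rep q).2 / 10 ^ (n - m1))) with hU
    have hUc : U.card ≤ 2 ^ (m1 + (r + 1)) := by
      apply UU_card m1 (r + 1) (by omega)
      intro p hp
      rw [hU, Finset.mem_image] at hp
      obtain ⟨q, hq, rfl⟩ := hp
      obtain ⟨a1, a2, _, _, a5, _, _⟩ := hO _ (hrep1 q hq)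
      obtain ⟨b1, b2, _⟩ := zf_spec hd a1
      obtain ⟨c1, c2, _⟩ := zf_spec hd a2
      rw [mem_W, mem_W]
      refine ⟨⟨?_, b2.div _⟩, ⟨?_, c2.div _⟩, ?_⟩
      · apply Nat.div_lt_of_lt_mul
        rw [← pow_add, show n - m1 + m1 = n by omega]
        exact b1
      · apply Nat.div_lt_of_lt_mul
        rw [← pow_add, show n - m1 + m1 = n by omega]
        exact c1
      · show zf a d n (rep q).1 / 10 ^ (n - m1) / 10 ^ (r + 1) =
          zf a d n (rep q).2 / 10 ^ (n - m1) / 10 ^ (r + 1)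
        rw [Nat.div_div_eq_div_mul, Nat.div_div_eq_div_mul, ← pow_add,
          show n - m1 + (r + 1) = P + 1 by omega]
        exact a5.symm
    have h1 : (O.image g).card ≤ (U ×ˢ (Finset.range 2 ×ˢ Finset.range 2)).card := by
      apply Finset.card_le_card_of_injOn (fun q =>
        ((zf a d n (rep q).1 / 10 ^ (n - m1), zf a d n (rep q).2 / 10 ^ (n - m1)), (q.1 % 2, q.2 % 2)))
      · intro q hq
        simp only [Finset.coe_product, Set.mem_prod, Finset.mem_coe, Finset.mem_range]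
        refine ⟨?_, Nat.mod_lt _ (by norm_num), Nat.mod_lt _ (by norm_num)⟩
        rw [hU]
        exact Finset.mem_image_of_mem _ (Finset.mem_coe.1 hq)
      · intro q hq q' hq' hqq
        have hq := Finset.mem_coe.1 hq
        have hq' := Finset.mem_coe.1 hq'
        simp only [Prod.mk.injEq] at hqq
        obtain ⟨⟨u1, u2⟩, u3, u4⟩ := hqq
        obtain ⟨a1, a2, _⟩ := hO _ (hrep1 q hq)
        obtain ⟨b1, b2, _⟩ := hO _ (hrep1 q' hq')
        have r1 := hrep2 q hq
        have r2 := hrep2 q' hq'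
        have close : ∀ k k' : ℕ, Sq a d n k → Sq a d n k' →
            zf a d n k / 10 ^ (n - m1) = zf a d n k' / 10 ^ (n - m1) →
            k / 10 ^ i % 2 = k' / 10 ^ i % 2 → k / 10 ^ i = k' / 10 ^ i := by
          have aux : ∀ k k' : ℕ, Sq a d n k → Sq a d n k' → k ≤ k' →
            zf a d n k / 10 ^ (n - m1) = zf a d n k' / 10 ^ (n - m1) →
            k / 10 ^ i % 2 = k' / 10 ^ i % 2 → k / 10 ^ i = k' / 10 ^ i := by
            intro k k' hk hk' hle hz hmod
            have h1 := top_close (i := i) (Q := n - m1) hd hd9 hh hn1 hn2 hk hk' hle (by omega) hz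
            have h2 : k / 10 ^ i ≤ k' / 10 ^ i := Nat.div_le_div_right hle
            have h3 : k' / 10 ^ i ≤ k / 10 ^ i + 1 := by
              rw [← Nat.add_div_right _ hM]
              apply Nat.div_le_div_right
              omega
            omega
          intro k k' hk hk' hz hmod
          rcases le_total k k' with hle | hle
          · exact aux k k' hk hk' hle hz hmod
          · exact (aux k' k hk' hk hle hz.symm hmod.symm).symm
        have v1 : (rep q).1 / 10 ^ i = q.1 := congrArg Prod.fst r1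
        have v2 : (rep q).2 / 10 ^ i = q.2 := congrArg Prod.snd r1
        have v3 : (rep q').1 / 10 ^ i = q'.1 := congrArg Prod.fst r2
        have v4 : (rep q').2 / 10 ^ i = q'.2 := congrArg Prod.snd r2
        ext
        · rw [← v1, ← v3]
          exact close _ _ a1 b1 u1 (by rw [v1, v3]; exact u3)
        · rw [← v2, ← v4]
          exact close _ _ a2 b2 u2 (by rw [v2, v4]; exact u4)
    rw [Finset.card_product, Finset.card_product, Finset.card_range] at h1
    calc (O.image g).card ≤ U.card * (2 * 2) := h1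
      _ ≤ 2 ^ (m1 + (r + 1)) * (2 * 2) := Nat.mul_le_mul_right _ hUc
      _ = 2 ^ (m1 + r + 3) := by ring
  have hsum : (O.card : ℝ) = ∑ q ∈ O.image g, ((O.filter (fun p => g p = q)).card : ℝ) := by
    have := Finset.card_eq_sum_card_image g O
    exact_mod_cast this
  rw [hsum]
  calc ∑ q ∈ O.image g, ((O.filter (fun p => g p = q)).card : ℝ)
      ≤ ∑ _q ∈ O.image g, goldenRatio ^ (i + 2 + (m1 - r)) := Finset.sum_le_sum hfib
    _ = ((O.image g).card : ℝ) * goldenRatio ^ (i + 2 + (m1 - r)) := by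
        rw [Finset.sum_const, nsmul_eq_mul]
    _ ≤ (2 ^ (m1 + r + 3) : ℝ) * goldenRatio ^ (i + 2 + (m1 - r)) := by
        apply mul_le_mul_of_nonneg_right _ (by positivity)
        exact_mod_cast himg

end Pool.Agent.TDS
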