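import Mathlib
import Pool.Agent.TDS.Off

/-! The bound for a fixed number of digits and fixed digits. -/

namespace Pool.Agent.TDS

open Real

theorem pairs_bound (S : Finset ℕ) (M : ℕ) :
    (S.card : ℝ) ^ 2 ≤ ((S.image (fun k => k % M)).card : ℝ) *
      (S.card + 2 * (((S ×ˢ S).filter (fun p => p.1 < p.2 ∧ p.1 % M = p.2 % M)).card : ℝ)) := by
  classical
  set V := S.image (fun k => k % M) with hV
  set f : ℕ → ℕ := fun v => (S.filter (fun k => k % M = v)).card with hf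
  set Pr := (S ×ˢ S).filter (fun p => p.1 % M = p.2 % M) with hPr
  set O := (S ×ˢ S).filter (fun p => p.1 < p.2 ∧ p.1 % M = p.2 % M) with hO
  have h1 : S.card = ∑ v ∈ V, f v := Finset.card_eq_sum_card_image _ S
  have h2 : (∑ v ∈ V, (f v : ℝ)) ^ 2 ≤ (V.card : ℝ) * ∑ v ∈ V, (f v : ℝ) ^ 2 :=
    sq_sum_le_card_mul_sum_sq
  have h3 : Pr.card = ∑ v ∈ V, f v ^ 2 := by
    have hmaps : ∀ p ∈ Pr, p.1 % M ∈ V := by
      intro p hp
      rw [hPr, Finset.mem_filter, Finset.mem_product] at hp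
      rw [hV]
      exact Finset.mem_image_of_mem _ hp.1.1
    rw [Finset.card_eq_sum_card_fiberwise hmaps]
    apply Finset.sum_congr rfl
    intro v _
    have : Pr.filter (fun p => p.1 % M = v) =
        (S.filter (fun k => k % M = v)) ×ˢ (S.filter (fun k => k % M = v)) := by
      ext p
      simp only [hPr, Finset.mem_filter, Finset.mem_product]
      constructor
      · rintro ⟨⟨⟨a1, a2⟩, a3⟩, a4⟩
        exact ⟨⟨a1, a4⟩, a2, by rw [← a3]; exact a4⟩
      · rintro ⟨⟨a1, a2⟩, a3, a4⟩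
        exact ⟨⟨⟨a1, a3⟩, by rw [a2, a4]⟩, a2⟩
    rw [this, Finset.card_product, hf]
    ring
  have h4 : Pr.card ≤ S.card + 2 * O.card := by
    have hsub : Pr ⊆ (S.image (fun k => (k, k))) ∪ (O ∪ O.image (fun p => (p.2, p.1))) := by
      intro p hp
      rw [hPr, Finset.mem_filter, Finset.mem_product] at hp
      obtain ⟨⟨a1, a2⟩, a3⟩ := hp
      rw [Finset.mem_union, Finset.mem_union]
      rcases lt_trichotomy p.1 p.2 with h | h | h
      · right; left
        rw [hO, Finset.mem_filter, Finset.mem_product]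
        exact ⟨⟨a1, a2⟩, h, a3⟩
      · left
        rw [Finset.mem_image]
        exact ⟨p.1, a1, by ext <;> simp [h]⟩
      · right; right
        rw [Finset.mem_image]
        refine ⟨(p.2, p.1), ?_, rfl⟩
        rw [hO, Finset.mem_filter, Finset.mem_product]
        exact ⟨⟨a2, a1⟩, h, a3.symm⟩
    have c1 := Finset.card_le_card hsub
    have c2 := Finset.card_union_le (S.image (fun k => (k, k))) (O ∪ O.image (fun p => (p.2, p.1)))
    have c3 := Finset.card_union_le O (O.image (fun p => (p.2, p.1)))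
    have c4 : (S.image (fun k => (k, k))).card ≤ S.card := Finset.card_image_le
    have c5 : (O.image (fun p => (p.2, p.1))).card ≤ O.card := Finset.card_image_le
    omega
  have h5 : (S.card : ℝ) = ∑ v ∈ V, (f v : ℝ) := by exact_mod_cast h1
  have h6 : (Pr.card : ℝ) = ∑ v ∈ V, (f v : ℝ) ^ 2 := by exact_mod_cast h3
  have h7 : (Pr.card : ℝ) ≤ S.card + 2 * O.card := by exact_mod_cast h4
  rw [← h5, ← h6] at h2
  exact h2.trans (mul_le_mul_of_nonneg_left h7 (by positivity))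

theorem gr_lt : goldenRatio ≤ 5 / 3 := by
  have h1 : (0 : ℝ) ≤ √5 := by positivity
  have h2 : √5 ≤ 7 / 3 := by
    rw [Real.sqrt_le_left (by norm_num)]
    norm_num
  unfold goldenRatio
  linarith

theorem geo_sum (m : ℕ) : ∑ r ∈ Finset.range m, (2 : ℝ) ^ r * goldenRatio ^ (m - r) ≤ 5 * 2 ^ m := by
  induction m with
  | zero => simp
  | succ m ih =>
    rw [Finset.sum_range_succ]
    have h1 : ∑ r ∈ Finset.range m, (2 : ℝ) ^ r * goldenRatio ^ (m + 1 - r) =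
        goldenRatio * ∑ r ∈ Finset.range m, (2 : ℝ) ^ r * goldenRatio ^ (m - r) := by
      rw [Finset.mul_sum]
      apply Finset.sum_congr rfl
      intro r hr
      rw [Finset.mem_range] at hr
      rw [show m + 1 - r = (m - r) + 1 by omega, pow_succ]
      ring
    rw [h1, show m + 1 - m = 1 by omega, pow_one, pow_succ]
    have h2 : (0 : ℝ) ≤ ∑ r ∈ Finset.range m, (2 : ℝ) ^ r * goldenRatio ^ (m - r) := by
      apply Finset.sum_nonneg
      intro r _
      have := goldenRatio_pos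
      positivity
    have h3 : (0 : ℝ) < 2 ^ m := by positivity
    have h4 := gr_lt
    have h5 := goldenRatio_pos
    calc goldenRatio * ∑ r ∈ Finset.range m, (2 : ℝ) ^ r * goldenRatio ^ (m - r) + 2 ^ m * goldenRatio
        = goldenRatio * (∑ r ∈ Finset.range m, (2 : ℝ) ^ r * goldenRatio ^ (m - r) + 2 ^ m) := by ring
      _ ≤ goldenRatio * (5 * 2 ^ m + 2 ^ m) := by
          apply mul_le_mul_of_nonneg_left _ h5.le
          linarith
      _ = goldenRatio * (6 * 2 ^ m) := by ring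
      _ ≤ 5 / 3 * (6 * 2 ^ m) := by
          apply mul_le_mul_of_nonneg_right h4
          positivity
      _ = 5 * (2 ^ m * 2) := by ring

theorem off_total {a d n i h : ℕ} (hd : 1 ≤ d) (hd9 : d ≤ 9) (hh : 1 ≤ h)
    (hn1 : n ≤ 2 * h) (hn2 : 2 * h ≤ n + 1) (hih : i + 1 ≤ h) (hmn : h + 1 - i ≤ n)
    (S : Finset ℕ) (hS : ∀ k ∈ S, Sq a d n k) :
    (((S ×ˢ S).filter (fun p => p.1 < p.2 ∧ p.1 % 10 ^ i = p.2 % 10 ^ i)).card : ℝ) ≤
      40 * 4 ^ (h + 1 - i) * goldenRatio ^ (i + 2) := by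
  classical
  set m1 := h + 1 - i with hm1
  set O := (S ×ˢ S).filter (fun p => p.1 < p.2 ∧ p.1 % 10 ^ i = p.2 % 10 ^ i) with hO
  set Or : ℕ → Finset (ℕ × ℕ) := fun r => O.filter (fun p =>
    zf a d n p.2 / 10 ^ (n - m1 + r + 1) = zf a d n p.1 / 10 ^ (n - m1 + r + 1) ∧
      zf a d n p.2 / 10 ^ (n - m1 + r) % 10 = 1 ∧ zf a d n p.1 / 10 ^ (n - m1 + r) % 10 = 0) with hOr
  have hmem : ∀ p ∈ O, Sq a d n p.1 ∧ Sq a d n p.2 ∧ p.1 < p.2 ∧ p.1 % 10 ^ i = p.2 % 10 ^ i := by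
    intro p hp
    rw [hO, Finset.mem_filter, Finset.mem_product] at hp
    exact ⟨hS _ hp.1.1, hS _ hp.1.2, hp.2.1, hp.2.2⟩
  have hcover : O ⊆ (Finset.range m1).biUnion Or := by
    intro p hp
    obtain ⟨a1, a2, a3, a4⟩ := hmem p hp
    obtain ⟨b1, b2, b3⟩ := zf_spec hd a1
    obtain ⟨c1, c2, c3⟩ := zf_spec hd a2
    have hlt : zf a d n p.1 < zf a d n p.2 := by
      have h1 : p.1 ^ 2 < p.2 ^ 2 := Nat.pow_lt_pow_left a3 (by norm_num)
      rw [b3, c3] at h1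
      have h2 : d * zf a d n p.1 < d * zf a d n p.2 := by omega
      exact lt_of_mul_lt_mul_left h2 (Nat.zero_le _)
    obtain ⟨P, p1, p2, p3⟩ := top_diff c2 b2 hlt
    have hPn : P < n := by
      by_contra hcon
      push Not at hcon
      have : zf a d n p.2 < 10 ^ P := lt_of_lt_of_le c1 (Nat.pow_le_pow_right (by norm_num) hcon)
      rw [Nat.div_eq_of_lt this] at p2
      omega
    have hPm : n - m1 ≤ P := by
      by_contra hcon
      push Not at hcon
      have h1 : zf a d n p.1 / 10 ^ (n - m1) = zf a d n p.2 / 10 ^ (n - m1) :=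
        (prefix_mono p1 (by omega)).symm
      have h2 := top_close (i := i) (Q := n - m1) hd hd9 hh hn1 hn2 a1 a2 a3.le (by omega) h1
      have h3 : 10 ^ i ∣ p.2 - p.1 := (Nat.modEq_iff_dvd' a3.le).1 a4
      have h4 : 10 ^ i ≤ p.2 - p.1 := Nat.le_of_dvd (by omega) h3
      omega
    rw [Finset.mem_biUnion]
    refine ⟨P - (n - m1), Finset.mem_range.2 (by omega), ?_⟩
    simp only [hOr, Finset.mem_filter]
    rw [show n - m1 + (P - (n - m1)) = P by omega]
    exact ⟨hp, p1, p2, p3⟩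
  have hlev : ∀ r ∈ Finset.range m1, ((Or r).card : ℝ) ≤
      2 ^ (m1 + r + 3) * goldenRatio ^ (i + 2 + (m1 - r)) := by
    intro r hr
    rw [Finset.mem_range] at hr
    apply off_level hd hd9 hh hn1 hn2 hih hmn r hr
    intro p hp
    simp only [hOr, Finset.mem_filter] at hp
    obtain ⟨hp1, hp2, hp3, hp4⟩ := hp
    obtain ⟨a1, a2, a3, a4⟩ := hmem p hp1
    exact ⟨a1, a2, a3, a4, hp2, hp3, hp4⟩
  have h1 : (O.card : ℝ) ≤ ∑ r ∈ Finset.range m1, ((Or r).card : ℝ) := by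
    have := (Finset.card_le_card hcover).trans Finset.card_biUnion_le
    exact_mod_cast this
  refine h1.trans ((Finset.sum_le_sum hlev).trans ?_)
  have h2 : ∑ r ∈ Finset.range m1, (2 : ℝ) ^ (m1 + r + 3) * goldenRatio ^ (i + 2 + (m1 - r)) =
      8 * 2 ^ m1 * goldenRatio ^ (i + 2) * ∑ r ∈ Finset.range m1, (2 : ℝ) ^ r * goldenRatio ^ (m1 - r) := by
    rw [Finset.mul_sum]
    apply Finset.sum_congr rfl
    intro r _
    ring
  rw [h2]
  have h3 := geo_sum m1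
  have h4 := goldenRatio_pos
  calc 8 * 2 ^ m1 * goldenRatio ^ (i + 2) * ∑ r ∈ Finset.range m1, (2 : ℝ) ^ r * goldenRatio ^ (m1 - r)
      ≤ 8 * 2 ^ m1 * goldenRatio ^ (i + 2) * (5 * 2 ^ m1) :=
        mul_le_mul_of_nonneg_left h3 (by positivity)
    _ = 40 * 4 ^ m1 * goldenRatio ^ (i + 2) := by
        rw [show (4 : ℝ) = 2 * 2 by norm_num, mul_pow]
        ring

theorem image_card {a d n i : ℕ} (hd : 1 ≤ d) (hd9 : d ≤ 9) (hi : 2 ≤ i)
    (S : Finset ℕ) (hS : ∀ k ∈ S, Sq a d n k) :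
    (S.image (fun k => k % 10 ^ i)).card ≤ 640 * 2 ^ i := by
  classical
  apply V_count (a * R n) d i hd hd9 hi
  intro v hv
  rw [Finset.mem_image] at hv
  obtain ⟨k, hk, rfl⟩ := hv
  have hkS := hS k hk
  obtain ⟨b1, b2, b3⟩ := zf_spec hd hkS
  have h25 := hkS.2.2.1
  have hdvd25 : 25 ∣ 10 ^ i := by
    have : (25 : ℕ) ∣ 10 ^ 2 := by norm_num
    exact this.trans (pow_dvd_pow 10 hi)
  refine ⟨Nat.mod_lt _ (by positivity), ?_, zf a d n k % 10 ^ i, b2.mod i,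
    Nat.mod_lt _ (by positivity), ?_⟩
  · intro h
    exact h25 ((Nat.dvd_mod_iff hdvd25).1 h)
  · have e1 : (k : ℤ) = 10 ^ i * ((k / 10 ^ i : ℕ) : ℤ) + ((k % 10 ^ i : ℕ) : ℤ) := by
      exact_mod_cast (Nat.div_add_mod k (10 ^ i)).symm
    have e2 : ((zf a d n k : ℕ) : ℤ) = 10 ^ i * ((zf a d n k / 10 ^ i : ℕ) : ℤ) +
        ((zf a d n k % 10 ^ i : ℕ) : ℤ) := by
      exact_mod_cast (Nat.div_add_mod (zf a d n k) (10 ^ i)).symm
    have e3 : (k : ℤ) ^ 2 = ((a * R n : ℕ) : ℤ) + d * ((zf a d n k : ℕ) : ℤ) := by exact_mod_cast b3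
    refine ⟨d * ((zf a d n k / 10 ^ i : ℕ) : ℤ) - 2 * ((k / 10 ^ i : ℕ) : ℤ) * ((k % 10 ^ i : ℕ) : ℤ) -
      10 ^ i * ((k / 10 ^ i : ℕ) : ℤ) ^ 2, ?_⟩
    have e4 : (10 ^ i * ((k / 10 ^ i : ℕ) : ℤ) + ((k % 10 ^ i : ℕ) : ℤ)) ^ 2 =
        ((a * R n : ℕ) : ℤ) + d * (10 ^ i * ((zf a d n k / 10 ^ i : ℕ) : ℤ) +
        ((zf a d n k % 10 ^ i : ℕ) : ℤ)) := by
      rw [← e1, ← e2]; exact e3
    linear_combination e4

end Pool.Agent.TDS
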