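import Mathlib
import Pool.Agent.TDS.Count

/-! The numerical bound for a fixed number of digits. -/

namespace Pool.Agent.TDS

open Real

/-- The base of the exponential bound: `10 ^ (11 / 42)`. -/
noncomputable def yb : ℝ := (10 : ℝ) ^ (11 / 42 : ℝ)

theorem yb_pos : 0 < yb := by unfold yb; positivity

theorem yb_pow : yb ^ 42 = 10 ^ 11 := by
  unfold yb
  rw [← Real.rpow_natCast, ← Real.rpow_mul (by norm_num)]
  norm_num

theorem yb_ge : 3 / 2 ≤ yb := by
  apply le_of_pow_le_pow_left₀ (n := 42) (by norm_num) yb_pos.le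
  rw [yb_pow]
  norm_num

theorem yb_one : 1 ≤ yb := by have := yb_ge; linarith

theorem gr_cube : goldenRatio ^ 3 = 2 * goldenRatio + 1 := by
  have h := goldenRatio_sq
  calc goldenRatio ^ 3 = goldenRatio ^ 2 * goldenRatio := by ring
    _ = goldenRatio ^ 2 + goldenRatio := by rw [h]; linarith
    _ = 2 * goldenRatio + 1 := by rw [h]; ring

theorem gr_pow18 : goldenRatio ^ 18 = 2584 * goldenRatio + 1597 := by
  have h := goldenRatio_sq
  have h3 := gr_cube
  have h6 : goldenRatio ^ 6 = 8 * goldenRatio + 5 := by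
    calc goldenRatio ^ 6 = (goldenRatio ^ 3) ^ 2 := by ring
      _ = 4 * goldenRatio ^ 2 + 4 * goldenRatio + 1 := by rw [h3]; ring
      _ = _ := by rw [h]; ring
  calc goldenRatio ^ 18 = (goldenRatio ^ 6) ^ 3 := by ring
    _ = 512 * goldenRatio ^ 3 + 960 * goldenRatio ^ 2 + 600 * goldenRatio + 125 := by rw [h6]; ring
    _ = _ := by rw [h3, h]; ring

theorem gr_ge : 3 / 2 ≤ goldenRatio := by
  have h2 : 2 ≤ √5 := by
    apply Real.le_sqrt_of_sq_le
    norm_num
  unfold goldenRatio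
  linarith

theorem base_le : (16 * goldenRatio ^ 3) ^ 6 ≤ 10 ^ 11 := by
  have h1 : (16 * goldenRatio ^ 3) ^ 6 = 16777216 * goldenRatio ^ 18 := by ring
  rw [h1, gr_pow18]
  have := gr_lt
  linarith

theorem B_le (g : ℕ) : (16 * goldenRatio ^ 3) ^ g ≤ yb ^ (7 * g) := by
  have h0 := goldenRatio_pos
  apply le_of_pow_le_pow_left₀ (n := 6) (by norm_num) (by have := yb_pos; positivity)
  have e1 : ((16 * goldenRatio ^ 3) ^ g) ^ 6 = ((16 * goldenRatio ^ 3) ^ 6) ^ g := by
    rw [← pow_mul, ← pow_mul, mul_comm g 6]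
  have e2 : (yb ^ (7 * g)) ^ 6 = (10 ^ 11 : ℝ) ^ g := by
    rw [← yb_pow, ← pow_mul, ← pow_mul]
    congr 1
    ring
  rw [e1, e2]
  exact pow_le_pow_left₀ (by positivity) base_le g

theorem count_fixed {a d n h : ℕ} (hd : 1 ≤ d) (hd9 : d ≤ 9) (hh : 1 ≤ h)
    (hn1 : n ≤ 2 * h) (hn2 : 2 * h ≤ n + 1) (S : Finset ℕ) (hS : ∀ k ∈ S, Sq a d n k) :
    (S.card : ℝ) ≤ 10 ^ 7 * yb ^ h := by
  classical
  by_cases hlt : h < 7
  · have h1 : S.card ≤ 10 ^ 6 := by
      have hsub : S ⊆ Finset.range (10 ^ 6) := by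
        intro k hk
        rw [Finset.mem_range]
        have := (Sq_size hh hn1 hn2 (hS k hk)).2
        exact this.trans_le (Nat.pow_le_pow_right (by norm_num) (by omega))
      simpa using Finset.card_le_card hsub
    have h2 : (1 : ℝ) ≤ yb ^ h := one_le_pow₀ yb_one
    have h3 : (S.card : ℝ) ≤ 10 ^ 6 := by exact_mod_cast h1
    linarith
  push Not at hlt
  obtain ⟨g, r, hg, hr, hhg⟩ : ∃ g r, 1 ≤ g ∧ r ≤ 6 ∧ h = 7 * g + r :=
    ⟨h / 7, h % 7, by omega, by omega, by omega⟩
  set i := 6 * g with hi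
  have hm1 : h + 1 - i = g + r + 1 := by omega
  have hP := pairs_bound S (10 ^ i)
  have hV := image_card (i := i) hd hd9 (by omega) S hS
  have hO := off_total (i := i) hd hd9 hh hn1 hn2 (by omega) (by omega) S hS
  rw [hm1] at hO
  set N : ℝ := (S.card : ℝ) with hN
  have hN0 : 0 ≤ N := by rw [hN]; positivity
  have hφ := goldenRatio_pos
  set B : ℝ := (16 * goldenRatio ^ 3) ^ g with hB
  have hB0 : 0 < B := by positivity
  have h64 : (64 : ℝ) ^ g ≤ B := by
    rw [hB]
    apply pow_le_pow_left₀ (by norm_num)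
    rw [gr_cube]
    have := gr_ge
    linarith
  have e1 : (2 : ℝ) ^ i = 64 ^ g := by
    rw [hi, pow_mul]; norm_num
  have hO' : (((S ×ˢ S).filter (fun p => p.1 < p.2 ∧ p.1 % 10 ^ i = p.2 % 10 ^ i)).card : ℝ) ≤
      1966080 * (4 ^ g * goldenRatio ^ (6 * g)) := by
    refine hO.trans ?_
    have h1 : (4 : ℝ) ^ (g + r + 1) ≤ 16384 * 4 ^ g := by
      have : (4 : ℝ) ^ (g + r + 1) ≤ 4 ^ (g + 7) := pow_le_pow_right₀ (by norm_num) (by omega)
      refine this.trans (le_of_eq ?_)
      rw [pow_add]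
      norm_num
      ring
    have h2 : goldenRatio ^ (i + 2) ≤ 3 * goldenRatio ^ (6 * g) := by
      rw [hi, pow_add, goldenRatio_sq]
      have h3 := gr_lt
      have h4 : 0 < goldenRatio ^ (6 * g) := by positivity
      calc goldenRatio ^ (6 * g) * (goldenRatio + 1) ≤ goldenRatio ^ (6 * g) * 3 := by
            apply mul_le_mul_of_nonneg_left _ h4.le
            linarith
        _ = _ := by ring
    calc 40 * 4 ^ (g + r + 1) * goldenRatio ^ (i + 2)
        ≤ 40 * (16384 * 4 ^ g) * (3 * goldenRatio ^ (6 * g)) := by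
          apply mul_le_mul _ h2 (by positivity) (by positivity)
          apply mul_le_mul_of_nonneg_left h1 (by norm_num)
      _ = _ := by ring
  have e2 : (64 : ℝ) ^ g * (4 ^ g * goldenRatio ^ (6 * g)) = B ^ 2 := by
    have q1 : (16 * goldenRatio ^ 3) ^ 2 = 64 * (4 * goldenRatio ^ 6) := by ring
    have q2 : B ^ 2 = ((16 * goldenRatio ^ 3) ^ 2) ^ g := by
      rw [hB, ← pow_mul, ← pow_mul, mul_comm g 2]
    rw [q2, q1, mul_pow, mul_pow, ← pow_mul]
  have hV' : (((S.image (fun k => k % 10 ^ i)).card : ℕ) : ℝ) ≤ 640 * 64 ^ g := by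
    rw [← e1]
    exact_mod_cast hV
  have h5 : N ^ 2 ≤ 640 * B * N + 2516582400 * B ^ 2 := by
    refine hP.trans ?_
    have h6 : N + 2 * (((S ×ˢ S).filter (fun p => p.1 < p.2 ∧ p.1 % 10 ^ i = p.2 % 10 ^ i)).card : ℝ) ≤
        N + 2 * (1966080 * (4 ^ g * goldenRatio ^ (6 * g))) := by linarith
    calc (((S.image (fun k => k % 10 ^ i)).card : ℕ) : ℝ) *
          (N + 2 * (((S ×ˢ S).filter (fun p => p.1 < p.2 ∧ p.1 % 10 ^ i = p.2 % 10 ^ i)).card : ℝ))
        ≤ (640 * 64 ^ g) * (N + 2 * (1966080 * (4 ^ g * goldenRatio ^ (6 * g)))) := by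
          apply mul_le_mul hV' h6 (by positivity) (by positivity)
      _ = 640 * 64 ^ g * N + 2516582400 * (64 ^ g * (4 ^ g * goldenRatio ^ (6 * g))) := by ring
      _ = 640 * 64 ^ g * N + 2516582400 * B ^ 2 := by rw [e2]
      _ ≤ 640 * B * N + 2516582400 * B ^ 2 := by
          have : 640 * 64 ^ g * N ≤ 640 * B * N := by
            apply mul_le_mul_of_nonneg_right _ hN0
            linarith
          linarith
  have h7 : N ≤ 60000 * B := by
    by_contra hcon
    push Not at hcon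
    have h8 : 60000 * B * B ≤ B * N := by nlinarith
    have h9 : 60000 * B * N < N * N := by
      apply mul_lt_mul_of_pos_right hcon
      linarith
    have h10 : 0 < B * N := by
      apply mul_pos hB0
      linarith
    nlinarith
  have h11 := B_le g
  have h12 : yb ^ (7 * g) ≤ yb ^ h := pow_le_pow_right₀ yb_one (by omega)
  have h13 : 0 < yb ^ h := by have := yb_pos; positivity
  calc N ≤ 60000 * B := h7
    _ ≤ 60000 * yb ^ h := by
        apply mul_le_mul_of_nonneg_left _ (by norm_num)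
        exact h11.trans h12
    _ ≤ 10 ^ 7 * yb ^ h := by
        apply mul_le_mul_of_nonneg_right _ h13.le
        norm_num

end Pool.Agent.TDS
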