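import Mathlib
import Pool.Agent.TDS.Fixed

/-! From decimal digits to the counting theorem. -/

namespace Pool.Agent.TDS

open Real

theorem digits_repr (a d : ℕ) (L : List ℕ) (hL : ∀ x ∈ L, x = a ∨ x = a + d) :
    ∃ z, z < 10 ^ L.length ∧ B01 z ∧ Nat.ofDigits 10 L = a * R L.length + d * z := by
  induction L with
  | nil => exact ⟨0, by simp, B01.zero, by simp [R]⟩
  | cons x L ih =>
    obtain ⟨z, h1, h2, h3⟩ := ih (fun y hy => hL y (List.mem_cons_of_mem _ hy))
    rw [Nat.ofDigits_cons, h3, List.length_cons, R_succ']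
    rcases hL x List.mem_cons_self with rfl | rfl
    · refine ⟨0 + 10 * z, ?_, B01.cons (by omega) h2, by ring⟩
      rw [pow_succ]; omega
    · refine ⟨1 + 10 * z, ?_, B01.cons (by omega) h2, by ring⟩
      rw [pow_succ]; omega

theorem not_25 {k : ℕ} (hk : 1 ≤ k) (h10 : ¬ 10 ∣ k)
    (hc : (Nat.digits 10 (k ^ 2)).toFinset.card ≤ 2) : ¬ 25 ∣ k := by
  intro h25
  obtain ⟨j, rfl⟩ := h25
  have hj : j % 2 = 1 := by
    rcases Nat.mod_two_eq_zero_or_one j with h | h
    · exfalso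
      apply h10
      omega
    · exact h
  obtain ⟨w, rfl⟩ : ∃ w, j = 2 * w + 1 := ⟨j / 2, by omega⟩
  obtain ⟨q, hq⟩ : ∃ q, w * (w + 1) = 2 * q := by
    rcases Nat.even_mul_succ_self w with ⟨q, hq⟩
    exact ⟨q, by omega⟩
  have e : (25 * (2 * w + 1)) ^ 2 = 625 + 1000 * (5 * q) := by
    have : (25 * (2 * w + 1)) ^ 2 = 625 + 2500 * (w * (w + 1)) := by ring
    rw [this, hq]; ring
  rw [e] at hc
  have hd : Nat.digits 10 (625 + 1000 * (5 * q)) = 5 :: 2 :: 6 :: Nat.digits 10 (5 * q) := by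
    rw [Nat.digits_def' (by norm_num) (by omega)]
    rw [show (625 + 1000 * (5 * q)) % 10 = 5 by omega,
      show (625 + 1000 * (5 * q)) / 10 = 62 + 100 * (5 * q) by omega]
    rw [Nat.digits_def' (by norm_num) (by omega)]
    rw [show (62 + 100 * (5 * q)) % 10 = 2 by omega,
      show (62 + 100 * (5 * q)) / 10 = 6 + 10 * (5 * q) by omega]
    rw [Nat.digits_def' (by norm_num) (by omega)]
    rw [show (6 + 10 * (5 * q)) % 10 = 6 by omega,
      show (6 + 10 * (5 * q)) / 10 = 5 * q by omega]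
  rw [hd] at hc
  have hsub : ({5, 2, 6} : Finset ℕ) ⊆ (5 :: 2 :: 6 :: Nat.digits 10 (5 * q)).toFinset := by
    intro x hx
    simp only [Finset.mem_insert, Finset.mem_singleton] at hx
    simp only [List.toFinset_cons, Finset.mem_insert]
    tauto
  have := Finset.card_le_card hsub
  have h3 : ({5, 2, 6} : Finset ℕ).card = 3 := by decide
  omega

theorem Sq_of_digits {k : ℕ} (hk : 1 ≤ k) (h10 : ¬ 10 ∣ k)
    (hc : (Nat.digits 10 (k ^ 2)).toFinset.card ≤ 2) :
    ∃ a d, a < 10 ∧ 1 ≤ d ∧ d ≤ 9 ∧ Sq a d (Nat.digits 10 (k ^ 2)).length k := by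
  have hsub : (Nat.digits 10 (k ^ 2)).toFinset ⊆ Finset.range 10 := by
    intro x hx
    rw [List.mem_toFinset] at hx
    rw [Finset.mem_range]
    exact Nat.digits_lt_base (by norm_num) hx
  obtain ⟨D, h1, h2, h3⟩ := Finset.exists_subsuperset_card_eq hsub hc (by simp)
  obtain ⟨x, y, hxy, rfl⟩ := Finset.card_eq_two.1 h3
  have hx : x < 10 := by
    have := h2 (show x ∈ ({x, y} : Finset ℕ) by simp)
    simpa using this
  have hy : y < 10 := by
    have := h2 (show y ∈ ({x, y} : Finset ℕ) by simp)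
    simpa using this
  have hk2 : k ^ 2 ≠ 0 := by positivity
  obtain ⟨a, b, hab, hb, hmem⟩ : ∃ a b, a < b ∧ b < 10 ∧
      ∀ u ∈ Nat.digits 10 (k ^ 2), u = a ∨ u = b := by
    rcases lt_or_gt_of_ne hxy with h | h
    · refine ⟨x, y, h, hy, fun u hu => ?_⟩
      have := h1 (List.mem_toFinset.2 hu)
      simpa using this
    · refine ⟨y, x, h, hx, fun u hu => ?_⟩
      have := h1 (List.mem_toFinset.2 hu)
      simp only [Finset.mem_insert, Finset.mem_singleton] at this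
      tauto
  obtain ⟨d, rfl⟩ : ∃ d, b = a + d := ⟨b - a, by omega⟩
  obtain ⟨z, z1, z2, z3⟩ := digits_repr a d _ hmem
  rw [Nat.ofDigits_digits] at z3
  refine ⟨a, d, by omega, by omega, by omega, ?_, ?_, not_25 hk h10 hc, z, z1, z2, z3⟩
  · exact Nat.base_pow_length_digits_le 10 (k ^ 2) (by norm_num) hk2
  · exact Nat.lt_base_pow_length_digits (by norm_num)

theorem yb_le : yb ≤ 2 := by
  apply le_of_pow_le_pow_left₀ (n := 42) (by norm_num) (by norm_num)
  rw [yb_pow]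
  norm_num

theorem yb_log (X : ℕ) (hX : 1 ≤ X) : yb ^ (Nat.log 10 X) ≤ (X : ℝ) ^ (11 / 42 : ℝ) := by
  have h1 : yb ^ (Nat.log 10 X) = ((10 ^ Nat.log 10 X : ℕ) : ℝ) ^ (11 / 42 : ℝ) := by
    unfold yb
    rw [← Real.rpow_natCast, ← Real.rpow_mul (by norm_num), Nat.cast_pow, ← Real.rpow_natCast,
      ← Real.rpow_mul (by norm_num), mul_comm]
    norm_num
  rw [h1]
  apply Real.rpow_le_rpow (by positivity) _ (by norm_num)
  exact_mod_cast Nat.pow_log_le_self 10 (by omega)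

theorem yb_sum (H : ℕ) : ∑ h ∈ Finset.Icc 1 H, yb ^ h ≤ 3 * yb ^ H := by
  induction H with
  | zero => simp
  | succ H ih =>
    rw [Finset.sum_Icc_succ_top (by omega), pow_succ]
    have h1 := yb_ge
    have h2 : 0 < yb ^ H := by have := yb_pos; positivity
    nlinarith

/-- The numbers not divisible by 10. -/
theorem count_prim (X : ℕ) (hX : 1 ≤ X) (T : Finset ℕ)
    (hT : ∀ k ∈ T, 1 ≤ k ∧ k ≤ X ∧ ¬ 10 ∣ k ∧ (Nat.digits 10 (k ^ 2)).toFinset.card ≤ 2) :
    (T.card : ℝ) ≤ 11 * 10 ^ 9 * (X : ℝ) ^ (11 / 42 : ℝ) := by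
  classical
  set H := Nat.log 10 X + 1 with hH
  set I := (Finset.Icc 1 H) ×ˢ ((Finset.range 2) ×ˢ ((Finset.range 10) ×ˢ (Finset.Icc 1 9))) with hI
  set TT : ℕ × ℕ × ℕ × ℕ → Finset ℕ := fun q => T.filter (fun k => Sq q.2.2.1 q.2.2.2 (2 * q.1 - q.2.1) k)
    with hTT
  have hcover : T ⊆ I.biUnion TT := by
    intro k hk
    obtain ⟨k1, k2, k3, k4⟩ := hT k hk
    obtain ⟨a, d, ha, hd1, hd2, hSq⟩ := Sq_of_digits k1 k3 k4
    set n := (Nat.digits 10 (k ^ 2)).length with hn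
    have hlog1 : 10 ^ Nat.log 10 k ≤ k := Nat.pow_log_le_self 10 (by omega)
    have hlog2 : k < 10 ^ (Nat.log 10 k + 1) := Nat.lt_pow_succ_log_self (by norm_num) k
    have hlog3 : Nat.log 10 k ≤ Nat.log 10 X := Nat.log_mono_right k2
    set l := Nat.log 10 k with hl
    have hn1 : n < 2 * l + 3 := by
      have h1 : 10 ^ n < 10 ^ (2 * l + 3) := by
        calc 10 ^ n ≤ 10 * k ^ 2 := hSq.1
          _ < 10 * (10 ^ (l + 1)) ^ 2 := by
            have := Nat.pow_lt_pow_left hlog2 (show (2 : ℕ) ≠ 0 by norm_num)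
            omega
          _ = 10 ^ (2 * l + 3) := by ring
      exact (Nat.pow_lt_pow_iff_right (by norm_num)).1 h1
    have hn2 : 2 * l < n := by
      have h1 : 10 ^ (2 * l) < 10 ^ n := by
        calc 10 ^ (2 * l) = (10 ^ l) ^ 2 := by ring
          _ ≤ k ^ 2 := Nat.pow_le_pow_left hlog1 2
          _ < 10 ^ n := hSq.2.1
      exact (Nat.pow_lt_pow_iff_right (by norm_num)).1 h1
    rw [Finset.mem_biUnion]
    refine ⟨(l + 1, 2 * (l + 1) - n, a, d), ?_, ?_⟩
    · simp only [hI, Finset.mem_product, Finset.mem_Icc, Finset.mem_range]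
      omega
    · simp only [hTT, Finset.mem_filter]
      refine ⟨hk, ?_⟩
      rw [show 2 * (l + 1) - (2 * (l + 1) - n) = n by omega]
      exact hSq
  have hbound : ∀ q ∈ I, ((TT q).card : ℝ) ≤ 10 ^ 7 * yb ^ q.1 := by
    intro q hq
    simp only [hI, Finset.mem_product, Finset.mem_Icc, Finset.mem_range] at hq
    apply count_fixed (a := q.2.2.1) (d := q.2.2.2) (n := 2 * q.1 - q.2.1) (h := q.1) (by omega) (by omega)
      (by omega) (by omega) (by omega)
    intro k hk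
    simp only [hTT, Finset.mem_filter] at hk
    exact hk.2
  have h1 : (T.card : ℝ) ≤ ∑ q ∈ I, ((TT q).card : ℝ) := by
    have := (Finset.card_le_card hcover).trans Finset.card_biUnion_le
    exact_mod_cast this
  have h2 : ∑ q ∈ I, (10 ^ 7 * yb ^ q.1 : ℝ) = 180 * 10 ^ 7 * ∑ h ∈ Finset.Icc 1 H, yb ^ h := by
    rw [hI, Finset.sum_product, Finset.mul_sum]
    apply Finset.sum_congr rfl
    intro h _
    simp only [Finset.sum_const, Finset.card_product, Finset.card_range, Nat.card_Icc, nsmul_eq_mul]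
    push_cast
    ring
  have h3 := yb_sum H
  have h4 := yb_log X hX
  have h5 : yb ^ H ≤ 2 * (X : ℝ) ^ (11 / 42 : ℝ) := by
    rw [hH, pow_succ]
    have h6 : 0 < yb ^ Nat.log 10 X := by have := yb_pos; positivity
    calc yb ^ Nat.log 10 X * yb ≤ yb ^ Nat.log 10 X * 2 :=
          mul_le_mul_of_nonneg_left yb_le h6.le
      _ ≤ _ := by linarith
  have h7 : 0 ≤ (X : ℝ) ^ (11 / 42 : ℝ) := by positivity
  calc (T.card : ℝ) ≤ ∑ q ∈ I, ((TT q).card : ℝ) := h1
    _ ≤ ∑ q ∈ I, (10 ^ 7 * yb ^ q.1 : ℝ) := Finset.sum_le_sum hbound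
    _ = 180 * 10 ^ 7 * ∑ h ∈ Finset.Icc 1 H, yb ^ h := h2
    _ ≤ 180 * 10 ^ 7 * (3 * yb ^ H) := mul_le_mul_of_nonneg_left h3 (by norm_num)
    _ ≤ 180 * 10 ^ 7 * (3 * (2 * (X : ℝ) ^ (11 / 42 : ℝ))) := by
        apply mul_le_mul_of_nonneg_left _ (by norm_num)
        linarith
    _ ≤ _ := by
        have : 180 * 10 ^ 7 * (3 * (2 * (X : ℝ) ^ (11 / 42 : ℝ))) = 108 * 10 ^ 8 * (X : ℝ) ^ (11 / 42 : ℝ) := by
          ring
        rw [this]
        apply mul_le_mul_of_nonneg_right _ h7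
        norm_num

/-- The main theorem. -/
theorem main (X : ℕ) :
    (((Finset.Icc 1 X).filter (fun k => (Nat.digits 10 (k ^ 2)).toFinset.card ≤ 2)).card : ℝ) ≤
      33 * 10 ^ 9 * (X : ℝ) ^ (11 / 42 : ℝ) := by
  classical
  induction X using Nat.strong_induction_on with
  | _ X ih =>
    rcases Nat.eq_zero_or_pos X with rfl | hX
    · simp
    set M := (Finset.Icc 1 X).filter (fun k => (Nat.digits 10 (k ^ 2)).toFinset.card ≤ 2) with hM
    set M' := (Finset.Icc 1 (X / 10)).filter (fun k => (Nat.digits 10 (k ^ 2)).toFinset.card ≤ 2) with hM'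
    have hsub : M ⊆ M.filter (fun k => ¬ 10 ∣ k) ∪ M'.image (fun k => 10 * k) := by
      intro k hk
      rw [Finset.mem_union]
      by_cases h10 : 10 ∣ k
      · right
        obtain ⟨j, rfl⟩ := h10
        rw [hM, Finset.mem_filter, Finset.mem_Icc] at hk
        rw [Finset.mem_image]
        refine ⟨j, ?_, rfl⟩
        rw [hM', Finset.mem_filter, Finset.mem_Icc]
        refine ⟨⟨by omega, by omega⟩, ?_⟩
        have hj : 0 < j ^ 2 := by
          have : 0 < j := by omega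
          positivity
        have e : Nat.digits 10 ((10 * j) ^ 2) = 0 :: 0 :: Nat.digits 10 (j ^ 2) := by
          rw [show (10 * j) ^ 2 = 10 * (10 * j ^ 2) by ring]
          rw [Nat.digits_def' (by norm_num) (by omega)]
          rw [show 10 * (10 * j ^ 2) % 10 = 0 by omega, show 10 * (10 * j ^ 2) / 10 = 10 * j ^ 2 by omega]
          rw [Nat.digits_def' (by norm_num) (by omega)]
          rw [show 10 * j ^ 2 % 10 = 0 by omega, show 10 * j ^ 2 / 10 = j ^ 2 by omega]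
        rw [e] at hk
        refine le_trans (Finset.card_le_card ?_) hk.2
        intro x hx
        simp only [List.toFinset_cons, Finset.mem_insert]
        exact Or.inr (Or.inr hx)
      · left
        rw [Finset.mem_filter]
        exact ⟨hk, h10⟩
    have h1 : M.card ≤ (M.filter (fun k => ¬ 10 ∣ k)).card + M'.card :=
      (Finset.card_le_card hsub).trans ((Finset.card_union_le _ _).trans
        (Nat.add_le_add_left Finset.card_image_le _))
    have h2 : ((M.filter (fun k => ¬ 10 ∣ k)).card : ℝ) ≤ 11 * 10 ^ 9 * (X : ℝ) ^ (11 / 42 : ℝ) := by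
      apply count_prim X hX
      intro k hk
      rw [Finset.mem_filter, hM, Finset.mem_filter, Finset.mem_Icc] at hk
      exact ⟨hk.1.1.1, hk.1.1.2, hk.2, hk.1.2⟩
    have h3 : (M'.card : ℝ) ≤ 33 * 10 ^ 9 * ((X / 10 : ℕ) : ℝ) ^ (11 / 42 : ℝ) :=
      ih (X / 10) (by omega)
    have h4 : ((X / 10 : ℕ) : ℝ) ^ (11 / 42 : ℝ) ≤ 2 / 3 * (X : ℝ) ^ (11 / 42 : ℝ) := by
      have h5 : ((X / 10 : ℕ) : ℝ) ≤ (X : ℝ) / 10 := Nat.cast_div_le
      have h6 : ((X / 10 : ℕ) : ℝ) ^ (11 / 42 : ℝ) ≤ ((X : ℝ) / 10) ^ (11 / 42 : ℝ) :=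
        Real.rpow_le_rpow (by positivity) h5 (by norm_num)
      rw [Real.div_rpow (by positivity) (by norm_num)] at h6
      have h7 : 3 / 2 ≤ (10 : ℝ) ^ (11 / 42 : ℝ) := yb_ge
      have h8 : (0 : ℝ) ≤ (X : ℝ) ^ (11 / 42 : ℝ) := by positivity
      refine h6.trans ?_
      rw [div_le_iff₀ (by linarith)]
      nlinarith
    have h9 : (M.card : ℝ) ≤ ((M.filter (fun k => ¬ 10 ∣ k)).card : ℝ) + M'.card := by exact_mod_cast h1
    calc (M.card : ℝ) ≤ ((M.filter (fun k => ¬ 10 ∣ k)).card : ℝ) + M'.card := h9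
      _ ≤ 11 * 10 ^ 9 * (X : ℝ) ^ (11 / 42 : ℝ) + 33 * 10 ^ 9 * (2 / 3 * (X : ℝ) ^ (11 / 42 : ℝ)) := by
          apply add_le_add h2
          exact h3.trans (mul_le_mul_of_nonneg_left h4 (by norm_num))
      _ = 33 * 10 ^ 9 * (X : ℝ) ^ (11 / 42 : ℝ) := by ring

end Pool.Agent.TDS
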